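import Pool.Agent.Y498.SW.TI6

set_option autoImplicit false

/-!
Job SW-TI: the theorem `t_TI`.
-/

namespace Pool.Agent.Y498.SW

open Finset Pool.Agent.Y745.SW MeasureTheory Filter Topology Complex

theorem G0_cont (B : ℝ → ℝ) (hB : Continuous B) (a y : ℝ) : Continuous fun u : ℝ => G0 B a u y := by
  unfold G0
  apply Continuous.mul continuous_const
  apply intervalIntegral.continuous_parametric_intervalIntegral_of_continuous'
  simp only [Function.uncurry_def]
  fun_prop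

/-- the coefficient without cut-off -/
noncomputable def d0 (c : ℕ → ℂ) (B : ℝ → ℝ) (a U : ℝ) (n : ℕ) (y : ℝ) : ℂ :=
  c n * ((Real.sqrt n)⁻¹ * G0 B a (U * y) (Real.log n) : ℝ)

theorem d0_cont (c : ℕ → ℂ) (B : ℝ → ℝ) (hB : Continuous B) (a U : ℝ) (n : ℕ) :
    Continuous fun y : ℝ => d0 c B a U n y := by
  unfold d0
  have h := (G0_cont B hB a (Real.log n)).comp (continuous_const.mul continuous_id : Continuous fun y : ℝ => U * y)
  exact continuous_const.mul (Complex.continuous_ofReal.comp (continuous_const.mul h))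

theorem d0_eq (c : ℕ → ℂ) (B : ℝ → ℝ) (a U y : ℝ) (n : ℕ) (ha : 0 ≤ a) (hu : a ≤ U * y) :
    d0 c B a U n y = dp c B a (U * y) n := by
  unfold d0 dp
  rw [Gp_eq B a (U * y) (Real.log n) ha hu]

/-- the Dirichlet polynomial without cut-off -/
noncomputable def D0 (c : ℕ → ℂ) (B : ℝ → ℝ) (a U : ℝ) (X : ℕ) (y t : ℝ) : ℂ :=
  ∑ n ∈ Finset.Icc 1 X, d0 c B a U n y * (n : ℂ) ^ (-(t : ℂ) * I)

theorem cpow_cont (n : ℕ) (hn : 1 ≤ n) (f : ℝ → ℂ) (hf : Continuous f) :
    Continuous fun t : ℝ => (n : ℂ) ^ f t := by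
  apply hf.const_cpow
  left
  exact_mod_cast (by omega : n ≠ 0)

theorem D0_cont (c : ℕ → ℂ) (B : ℝ → ℝ) (hB : Continuous B) (a U : ℝ) (X : ℕ) :
    Continuous fun p : ℝ × ℝ => D0 c B a U X p.1 p.2 := by
  unfold D0
  apply continuous_finsetSum
  intro n hn
  apply Continuous.mul
  · exact (d0_cont c B hB a U n).comp continuous_fst
  · exact (cpow_cont n (mem_Icc.1 hn).1 (fun t : ℝ => -(t : ℂ) * I) (by fun_prop)).comp continuous_snd

theorem Px_cont (T : ℝ) : Continuous fun t : ℝ => Px T t := by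
  unfold Px Py
  apply continuous_finsetSum
  intro n hn
  exact cpow_cont n (mem_Icc.1 (mem_filter.1 hn).1).1 _ (by fun_prop)

/-- the exchange of the integrals and the final bound, for one `T` -/
theorem assemble (R : ℝ → ℝ) (hR : Continuous R) (c : ℕ → ℂ) (B : ℝ → ℝ) (hB : Continuous B)
    (ε τ η1 : ℝ) (hη1 : η1 ≤ 1) (k l : ℕ) (T : ℝ) (Rm ω W χ : ℝ) (hRm : ∀ x ∈ Set.Icc (0:ℝ) 1, |R x| ≤ Rm)
    (hη0 : 0 ≤ η1) (ha : 0 ≤ τ * Real.log T)
    (hu : ∀ y ∈ Set.Icc η1 1, τ * Real.log T ≤ (1 - ε) * Real.log T * y)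
    (hω : ∀ y ∈ Set.Icc η1 1, ‖((W : ℂ) *
      (∫ t in (T + Real.log T)..(2 * T - Real.log T), Px T t ^ k * (starRingEnd ℂ) (Px T t) ^ l *
        ((‖DPp c B (τ * Real.log T) ((1 - ε) * Real.log T * y) (XT ε T) t‖ ^ 2 : ℝ) : ℂ))) -
      ((χ * (∑ n ∈ Icc 1 (XT ε T), ‖dp c B (τ * Real.log T) ((1 - ε) * Real.log T * y) n‖ ^ 2) : ℝ) : ℂ)‖
      ≤ ω) :
    ‖(W : ℂ) * (∫ t in (T + Real.log T)..(2 * T - Real.log T),
        Px T t ^ k * (starRingEnd ℂ) (Px T t) ^ l * ((Dq R c B ε τ η1 T t : ℝ) : ℂ)) -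
      (χ : ℂ) * ((Zq R c B ε τ η1 T : ℝ) : ℂ)‖ ≤ 2 * (Rm * ω) := by
  set a := τ * Real.log T with hadef
  set U := (1 - ε) * Real.log T with hU
  set X := XT ε T with hX
  set T1 := T + Real.log T with hT1
  set T2 := 2 * T - Real.log T with hT2
  set f : ℝ → ℂ := fun t => Px T t ^ k * (starRingEnd ℂ) (Px T t) ^ l with hf
  have hfc : Continuous f := by
    apply Continuous.mul ((Px_cont T).pow k)
    exact (Complex.continuous_conj.comp (Px_cont T)).pow l
  have hde : ∀ y ∈ Set.Icc η1 1, ∀ n, d0 c B a U n y = dp c B a (U * y) n := fun y hy n =>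
    d0_eq c B a U y n ha (hu y hy)
  have hDe : ∀ y ∈ Set.Icc η1 1, ∀ t, D0 c B a U X y t = DPp c B a (U * y) X t := fun y hy t =>
    Finset.sum_congr rfl fun n _ => by rw [hde y hy]
  have hIcc : Set.uIcc η1 1 = Set.Icc η1 1 := Set.uIcc_of_le hη1
  have hDq : ∀ t, ((Dq R c B ε τ η1 T t : ℝ) : ℂ) =
      2 * ∫ y in η1..1, ((R y * ‖D0 c B a U X y t‖ ^ 2 : ℝ) : ℂ) := by
    intro t
    unfold Dq
    rw [intervalIntegral.integral_ofReal]
    push_cast
    congr 2
    apply intervalIntegral.integral_congr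
    intro y hy
    rw [hIcc] at hy
    simp only
    rw [hDe y hy]
  have hZq : ((Zq R c B ε τ η1 T : ℝ) : ℂ) =
      2 * ∫ y in η1..1, ((R y * ∑ n ∈ Icc 1 X, ‖d0 c B a U n y‖ ^ 2 : ℝ) : ℂ) := by
    unfold Zq
    rw [intervalIntegral.integral_ofReal]
    push_cast
    congr 2
    apply intervalIntegral.integral_congr
    intro y hy
    rw [hIcc] at hy
    simp only [hde y hy]
    rfl
  have hDc := D0_cont c B hB a U X
  have hFc : Continuous (Function.uncurry fun (t y : ℝ) => f t * ((R y * ‖D0 c B a U X y t‖ ^ 2 : ℝ) : ℂ)) := by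
    simp only [Function.uncurry_def]
    apply Continuous.mul (hfc.comp continuous_fst)
    apply Complex.continuous_ofReal.comp
    apply Continuous.mul (hR.comp continuous_snd)
    exact ((hDc.comp (continuous_snd.prodMk continuous_fst)).norm).pow 2
  have hswap : ∫ t in T1..T2, f t * ((Dq R c B ε τ η1 T t : ℝ) : ℂ) =
      2 * ∫ y in η1..1, (R y : ℂ) * ∫ t in T1..T2, f t * ((‖D0 c B a U X y t‖ ^ 2 : ℝ) : ℂ) := by
    have e1 : ∀ t, f t * ((Dq R c B ε τ η1 T t : ℝ) : ℂ) =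
        2 * ∫ y in η1..1, f t * ((R y * ‖D0 c B a U X y t‖ ^ 2 : ℝ) : ℂ) := by
      intro t
      rw [hDq, intervalIntegral.integral_const_mul]
      ring
    rw [intervalIntegral.integral_congr fun t _ => e1 t, intervalIntegral.integral_const_mul]
    congr 1
    rw [MeasureTheory.intervalIntegral_intervalIntegral_swap]
    · apply intervalIntegral.integral_congr
      intro y _
      simp only
      rw [← intervalIntegral.integral_const_mul]
      apply intervalIntegral.integral_congr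
      intro t _
      simp only
      push_cast
      ring
    · apply (hFc.continuousOn.integrableOn_compact
        (isCompact_uIcc.prod isCompact_uIcc) : IntegrableOn _ (Set.uIcc T1 T2 ×ˢ Set.uIcc η1 1) _).mono_set
      exact Set.prod_mono Set.uIoc_subset_uIcc Set.uIoc_subset_uIcc
  have hi1 : Continuous fun y : ℝ => (R y : ℂ) * ∫ t in T1..T2, f t * ((‖D0 c B a U X y t‖ ^ 2 : ℝ) : ℂ) := by
    apply Continuous.mul (Complex.continuous_ofReal.comp hR)
    apply intervalIntegral.continuous_parametric_intervalIntegral_of_continuous'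
    simp only [Function.uncurry_def]
    apply Continuous.mul (hfc.comp continuous_snd)
    apply Complex.continuous_ofReal.comp
    exact (hDc.norm).pow 2
  have hi2 : Continuous fun y : ℝ => ((R y * ∑ n ∈ Icc 1 X, ‖d0 c B a U n y‖ ^ 2 : ℝ) : ℂ) := by
    apply Complex.continuous_ofReal.comp
    apply hR.mul
    apply continuous_finsetSum
    intro n _
    exact ((d0_cont c B hB a U n).norm).pow 2
  have hmain : (W : ℂ) * (∫ t in T1..T2, f t * ((Dq R c B ε τ η1 T t : ℝ) : ℂ)) -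
      (χ : ℂ) * ((Zq R c B ε τ η1 T : ℝ) : ℂ) =
      2 * ∫ y in η1..1, ((R y : ℂ) * ((W : ℂ) * (∫ t in T1..T2, f t * ((‖D0 c B a U X y t‖ ^ 2 : ℝ) : ℂ)) -
        ((χ * ∑ n ∈ Icc 1 X, ‖d0 c B a U n y‖ ^ 2 : ℝ) : ℂ))) := by
    rw [hswap, hZq]
    have e2 : ∀ y : ℝ, ((R y : ℂ) * ((W : ℂ) * (∫ t in T1..T2, f t * ((‖D0 c B a U X y t‖ ^ 2 : ℝ) : ℂ)) -
        ((χ * ∑ n ∈ Icc 1 X, ‖d0 c B a U n y‖ ^ 2 : ℝ) : ℂ))) =
        (W : ℂ) * ((R y : ℂ) * ∫ t in T1..T2, f t * ((‖D0 c B a U X y t‖ ^ 2 : ℝ) : ℂ)) -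
        (χ : ℂ) * ((R y * ∑ n ∈ Icc 1 X, ‖d0 c B a U n y‖ ^ 2 : ℝ) : ℂ) := by
      intro y
      push_cast
      ring
    rw [intervalIntegral.integral_congr fun y _ => e2 y, intervalIntegral.integral_sub,
      intervalIntegral.integral_const_mul, intervalIntegral.integral_const_mul]
    · ring
    · exact (continuous_const.mul hi1).intervalIntegrable _ _
    · exact (continuous_const.mul hi2).intervalIntegrable _ _
  rw [hmain, norm_mul]
  have h2 : ‖(2:ℂ)‖ = 2 := by simp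
  rw [h2]
  apply mul_le_mul_of_nonneg_left _ (by norm_num)
  have hRm0 : 0 ≤ Rm := (abs_nonneg _).trans (hRm 0 (by norm_num))
  have hω0 : 0 ≤ ω := (norm_nonneg _).trans (hω 1 ⟨hη1, le_rfl⟩)
  have hb : ∀ y ∈ Set.uIoc η1 1, ‖((R y : ℂ) * ((W : ℂ) * (∫ t in T1..T2, f t *
      ((‖D0 c B a U X y t‖ ^ 2 : ℝ) : ℂ)) - ((χ * ∑ n ∈ Icc 1 X, ‖d0 c B a U n y‖ ^ 2 : ℝ) : ℂ)))‖ ≤
      Rm * ω := by
    intro y hy
    rw [Set.uIoc_of_le hη1] at hy
    have hy' : y ∈ Set.Icc η1 1 := ⟨hy.1.le, hy.2⟩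
    rw [norm_mul, Complex.norm_real, Real.norm_eq_abs]
    apply mul_le_mul (hRm y ⟨hη0.trans hy'.1, hy'.2⟩) _ (norm_nonneg _) hRm0
    refine le_trans (le_of_eq ?_) (hω y hy')
    congr 2
    · congr 1
      apply intervalIntegral.integral_congr
      intro t _
      simp only [hf]
      rw [hDe y hy']
    · rw [Finset.sum_congr rfl fun n _ => by rw [hde y hy' n]]
  refine (intervalIntegral.norm_integral_le_of_norm_le_const hb).trans ?_
  have h3 : |1 - η1| ≤ 1 := by rw [abs_of_nonneg (by linarith)]; linarith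
  exact mul_le_of_le_one_right (by positivity) h3

theorem t_TI : P_MVB → P_MC → P_TI := by
  intro hMVB hMC R hR hR0 B hB c hc ε τ η1 hε hε2 hτ hτε hη hη1 k l
  -- bounds for `B` and `R`
  obtain ⟨b, hb⟩ := (isCompact_Icc (a := (-1:ℝ)) (b := 1)).exists_bound_of_continuousOn hB.continuousOn
  obtain ⟨Rm, hRm⟩ := (isCompact_Icc (a := (0:ℝ)) (b := 1)).exists_bound_of_continuousOn hR.continuousOn
  obtain ⟨CM, hCM0, hCM⟩ := mertens_int
  set χ : ℝ := if k = l then (k.factorial : ℝ) else 0 with hχ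
  set CS := b ^ 2 * (4 + 2 * K3) + (b / τ) ^ 2 * (4 * τ + CM) with hCS
  set ω : ℝ → ℝ := fun T => om1 ((k:ℝ) + l) b ε τ (Real.log T) + CS *
      |(T - 2 * Real.log T) / T * (MM (xT T) k l / Real.log (Real.log T) ^ (((k:ℝ) + l) / 2)) - χ| with hω
  have hlogT : Tendsto (fun T : ℝ => Real.log T) atTop atTop := Real.tendsto_log_atTop
  have hLL : Tendsto (fun T : ℝ => Real.log (Real.log T)) atTop atTop := hlogT.comp hlogT
  have hωlim : Tendsto ω atTop (𝓝 0) := by
    have h1 : Tendsto (fun T : ℝ => om1 ((k:ℝ) + l) b ε τ (Real.log T)) atTop (𝓝 0) :=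
      (om1_lim _ b ε τ (by positivity) hε hτ).comp hlogT
    have h2 : Tendsto (fun T : ℝ => (T - 2 * Real.log T) / T) atTop (𝓝 1) := by
      have h3 : Tendsto (fun T : ℝ => Real.log T / T) atTop (𝓝 0) := by
        have := Real.isLittleO_log_id_atTop.tendsto_div_nhds_zero
        exact this
      have h4 := (h3.const_mul 2).const_sub 1
      rw [mul_zero, sub_zero] at h4
      refine h4.congr' ?_
      filter_upwards [eventually_gt_atTop 0] with T hT
      field_simp
    have h5 : Tendsto (fun T : ℝ => MM (xT T) k l / Real.log (Real.log T) ^ (((k:ℝ) + l) / 2)) atTop (𝓝 χ) :=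
      hMC k l
    have h6 : Tendsto (fun T : ℝ => (T - 2 * Real.log T) / T *
        (MM (xT T) k l / Real.log (Real.log T) ^ (((k:ℝ) + l) / 2)) - χ) atTop (𝓝 0) := by
      have := (h2.mul h5).sub_const χ
      rw [one_mul, sub_self] at this
      exact this
    have h7 := (h6.abs).const_mul CS
    rw [abs_zero, mul_zero] at h7
    have := h1.add h7
    rw [add_zero] at this
    exact this
  have hlim2 : Tendsto (fun T => 2 * (Rm * ω T)) atTop (𝓝 0) := by
    have := (hωlim.const_mul Rm).const_mul 2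
    rw [mul_zero, mul_zero] at this
    exact this
  refine squeeze_zero_norm' ?_ hlim2
  have hl0 : Tendsto (fun L : ℝ => L ^ 3 * Real.exp (-(τ / 8 * L))) atTop (𝓝 0) := by
    have := lim0 0 3 (τ / 8) (by positivity) le_rfl
    simpa using this
  have hev5 : ∀ᶠ T : ℝ in atTop, Real.log T ^ 3 * Real.exp (-(τ / 8 * Real.log T)) ≤ 1 :=
    (hl0.comp hlogT).eventually_le_const (by norm_num)
  have hev3 : ∀ᶠ T : ℝ in atTop, 2 * Real.log T ≤ T := by
    have h3 := Real.isLittleO_log_id_atTop.bound (show (0:ℝ) < 1 / 2 by norm_num)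
    filter_upwards [h3, eventually_gt_atTop 0] with T h hT
    simp only [id, Real.norm_eq_abs] at h
    rw [abs_of_pos hT] at h
    linarith [le_abs_self (Real.log T)]
  filter_upwards [hLL.eventually_ge_atTop 1, hLL.eventually_ge_atTop (2 / τ), hev3,
    hlogT.eventually_ge_atTop (1 / τ), hev5, eventually_gt_atTop 0] with T h1 h2 h3 h4 h5 h6
  have h4' : 1 ≤ τ * Real.log T := by
    rw [div_le_iff₀ hτ] at h4; linarith
  have hLpos : 0 < Real.log T := lt_of_lt_of_le (by positivity) h4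
  have hkey := assemble R hR c B hB ε τ η1 hη1 k l T Rm (ω T)
    ((1 / T) * (1 / Real.log (Real.log T) ^ (((k:ℝ) + l) / 2))) χ
    (fun x hx => by simpa using hRm x hx) (by linarith) (by linarith)
    (fun y hy => by
      have h7 : 4 * τ ≤ y := hη.trans hy.1
      have h8 : (1:ℝ) / 2 ≤ 1 - ε := by linarith
      have h9 : τ ≤ (1 - ε) * y := by nlinarith
      calc τ * Real.log T ≤ ((1 - ε) * y) * Real.log T := mul_le_mul_of_nonneg_right h9 hLpos.le
        _ = (1 - ε) * Real.log T * y := by ring)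
    (fun y hy => one_step hMVB c B b ε τ η1 hc (fun ξ hξ => by simpa using hb ξ hξ) hε hε2 hτ hη k l CM
      hCM0 hCM T y hy.1 h6 h1 h2 h3 h4' h5)
  refine le_trans (le_of_eq ?_) hkey
  congr 2
  rw [hχ]
  split_ifs with h
  · push_cast; rfl
  · simp

end Pool.Agent.Y498.SW
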