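import Pool.Agent.Y745.SW.DefsA

set_option autoImplicit false

/-!
Job SW-TI, part 1: Dirichlet convolution of finitely supported functions.
-/

namespace Pool.Agent.Y498.SW

open Finset

/-- exchange of a sum over the product -/
theorem sum_conv {M : Type*} [AddCommMonoid M] (H N Y : ℕ) (hY : H * N ≤ Y) (Φ : ℕ → ℕ → M)
    (hΦ : ∀ h n, (H < h ∨ N < n) → Φ h n = 0) :
    ∑ m ∈ Icc 1 Y, ∑ p ∈ m.divisorsAntidiagonal, Φ p.1 p.2 =
      ∑ h ∈ Icc 1 H, ∑ n ∈ Icc 1 N, Φ h n := by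
  classical
  rw [← Finset.sum_product' (Icc 1 H) (Icc 1 N) Φ]
  rw [← Finset.sum_fiberwise_of_maps_to (s := Icc 1 H ×ˢ Icc 1 N) (t := Icc 1 Y)
    (g := fun p : ℕ × ℕ => p.1 * p.2)]
  · refine Finset.sum_congr rfl fun m hm => ?_
    rw [Finset.mem_Icc] at hm
    symm
    apply Finset.sum_subset
    · intro p hp
      rw [mem_filter, mem_product, mem_Icc, mem_Icc] at hp
      rw [Nat.mem_divisorsAntidiagonal]
      exact ⟨hp.2, by omega⟩
    · intro p hp hp'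
      rw [Nat.mem_divisorsAntidiagonal] at hp
      apply hΦ
      by_contra hcon
      push Not at hcon
      apply hp'
      rw [mem_filter, mem_product, mem_Icc, mem_Icc]
      have h1 : p.1 ≠ 0 := fun h => by rw [h] at hp; simp at hp; omega
      have h2 : p.2 ≠ 0 := fun h => by rw [h] at hp; simp at hp; omega
      exact ⟨⟨⟨by omega, hcon.1⟩, ⟨by omega, hcon.2⟩⟩, hp.1⟩
  · intro p hp
    rw [mem_product, mem_Icc, mem_Icc] at hp
    rw [mem_Icc]
    refine ⟨Nat.mul_pos (by omega) (by omega), ?_⟩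
    exact (Nat.mul_le_mul hp.1.2 hp.2.2).trans hY

/-- the convolution -/
noncomputable def cv (f : ℕ → ℝ) (d : ℕ → ℂ) (m : ℕ) : ℂ :=
  ∑ p ∈ m.divisorsAntidiagonal, (f p.1 : ℂ) * d p.2

theorem cv_poly (f : ℕ → ℝ) (d : ℕ → ℂ) (H N Y : ℕ) (hY : H * N ≤ Y) (hf : ∀ h, H < h → f h = 0)
    (hd : ∀ n, N < n → d n = 0) (s : ℂ) :
    ∑ m ∈ Icc 1 Y, cv f d m * (m : ℂ) ^ s =
      (∑ h ∈ Icc 1 H, (f h : ℂ) * (h : ℂ) ^ s) * ∑ n ∈ Icc 1 N, d n * (n : ℂ) ^ s := by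
  rw [Finset.sum_mul_sum]
  rw [← sum_conv H N Y hY (fun h n => (f h : ℂ) * (h : ℂ) ^ s * (d n * (n : ℂ) ^ s))]
  · refine Finset.sum_congr rfl fun m hm => ?_
    rw [cv, Finset.sum_mul]
    refine Finset.sum_congr rfl fun p hp => ?_
    rw [Nat.mem_divisorsAntidiagonal] at hp
    rw [← hp.1, Nat.cast_mul, Complex.natCast_mul_natCast_cpow]
    ring
  · intro h n hh
    rcases hh with hh | hh
    · simp [hf h hh]
    · simp [hd n hh]

/-- Young's inequality -/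
theorem cv_sq (f : ℕ → ℝ) (d : ℕ → ℂ) (H N Y : ℕ) (hY : H * N ≤ Y) (hf : ∀ h, H < h → f h = 0)
    (hf0 : ∀ h, 0 ≤ f h) (hd : ∀ n, N < n → d n = 0) :
    ∑ m ∈ Icc 1 Y, ‖cv f d m‖ ^ 2 ≤ (∑ h ∈ Icc 1 H, f h) ^ 2 * ∑ n ∈ Icc 1 N, ‖d n‖ ^ 2 := by
  have h1 : ∀ m ∈ Icc 1 Y, ‖cv f d m‖ ^ 2 ≤
      ∑ p ∈ m.divisorsAntidiagonal, (∑ h ∈ Icc 1 H, f h) * (f p.1 * ‖d p.2‖ ^ 2) := by
    intro m hm
    rw [mem_Icc] at hm
    have h2 : ‖cv f d m‖ ≤ ∑ p ∈ m.divisorsAntidiagonal, f p.1 * ‖d p.2‖ := by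
      refine (norm_sum_le _ _).trans (le_of_eq (Finset.sum_congr rfl fun p _ => ?_))
      rw [norm_mul, Complex.norm_real, Real.norm_of_nonneg (hf0 _)]
    have h3 : (∑ p ∈ m.divisorsAntidiagonal, f p.1 * ‖d p.2‖) ^ 2 ≤
        (∑ p ∈ m.divisorsAntidiagonal, f p.1) *
          ∑ p ∈ m.divisorsAntidiagonal, f p.1 * ‖d p.2‖ ^ 2 := by
      have := Finset.sum_mul_sq_le_sq_mul_sq m.divisorsAntidiagonal
        (fun p => Real.sqrt (f p.1)) (fun p => Real.sqrt (f p.1) * ‖d p.2‖)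
      refine le_trans (le_of_eq ?_) (this.trans (le_of_eq ?_))
      · congr 1
        refine Finset.sum_congr rfl fun p _ => ?_
        rw [← mul_assoc, Real.mul_self_sqrt (hf0 _)]
      · congr 1
        · exact Finset.sum_congr rfl fun p _ => Real.sq_sqrt (hf0 _)
        · refine Finset.sum_congr rfl fun p _ => ?_
          rw [mul_pow, Real.sq_sqrt (hf0 _)]
    have h4 : ∑ p ∈ m.divisorsAntidiagonal, f p.1 ≤ ∑ h ∈ Icc 1 H, f h := by
      have e : ∑ p ∈ m.divisorsAntidiagonal, f p.1 = ∑ h ∈ m.divisors, f h :=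
        Nat.sum_divisorsAntidiagonal (f := fun h _ => f h)
      rw [e]
      have : ∑ h ∈ m.divisors, f h = ∑ h ∈ m.divisors.filter (fun h => h ∈ Icc 1 H), f h := by
        symm
        apply Finset.sum_subset (filter_subset _ _)
        intro h hh hh'
        rw [mem_filter, not_and] at hh'
        have := hh' hh
        rw [mem_Icc] at this
        have hpos := Nat.pos_of_mem_divisors hh
        exact hf h (by omega)
      rw [this]
      refine Finset.sum_le_sum_of_subset_of_nonneg ?_ fun h _ _ => hf0 h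
      intro h hh
      exact (mem_filter.1 hh).2
    have h5 : 0 ≤ ∑ p ∈ m.divisorsAntidiagonal, f p.1 * ‖d p.2‖ ^ 2 :=
      Finset.sum_nonneg fun p _ => mul_nonneg (hf0 _) (by positivity)
    rw [← Finset.mul_sum]
    calc ‖cv f d m‖ ^ 2 ≤ (∑ p ∈ m.divisorsAntidiagonal, f p.1 * ‖d p.2‖) ^ 2 :=
          pow_le_pow_left₀ (norm_nonneg _) h2 2
      _ ≤ _ := h3
      _ ≤ _ := mul_le_mul_of_nonneg_right h4 h5
  refine (Finset.sum_le_sum h1).trans (le_of_eq ?_)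
  rw [sum_conv H N Y hY (fun h n => (∑ h ∈ Icc 1 H, f h) * (f h * ‖d n‖ ^ 2))]
  · have e : ∀ h, ∑ n ∈ Icc 1 N, (∑ h ∈ Icc 1 H, f h) * (f h * ‖d n‖ ^ 2) =
        f h * ((∑ h ∈ Icc 1 H, f h) * ∑ n ∈ Icc 1 N, ‖d n‖ ^ 2) := by
      intro h
      rw [← Finset.mul_sum, ← Finset.mul_sum]
      ring
    rw [Finset.sum_congr rfl fun h _ => e h, ← Finset.sum_mul]
    ring
  · intro h n hh
    rcases hh with hh | hh
    · simp [hf h hh]
    · simp [hd n hh]

/-- linearity -/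
theorem cv_add (f : ℕ → ℝ) (d e : ℕ → ℂ) (m : ℕ) :
    cv f (fun n => d n + e n) m = cv f d m + cv f e m := by
  unfold cv
  rw [← Finset.sum_add_distrib]
  exact Finset.sum_congr rfl fun p _ => by ring

/-- orthogonality -/
theorem cv_orth (f g : ℕ → ℝ) (d : ℕ → ℂ) (H N Y : ℕ) (x : ℝ) (hY : H * N ≤ Y)
    (hfg : ∀ h, H < h → f h = 0 ∨ g h = 0)
    (hg : ∀ h, g h ≠ 0 → ∀ r : ℕ, r.Prime → r ∣ h → (r : ℝ) ≤ x)
    (hd : ∀ n, N < n → d n = 0) (hd' : ∀ n, d n ≠ 0 → n.Prime ∧ x < n) :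
    ∑ m ∈ Icc 1 Y, cv f d m * (starRingEnd ℂ) (cv g d m) =
      ((∑ h ∈ Icc 1 H, f h * g h : ℝ) : ℂ) * ((∑ n ∈ Icc 1 N, ‖d n‖ ^ 2 : ℝ) : ℂ) := by
  have h1 : ∀ m ∈ Icc 1 Y, cv f d m * (starRingEnd ℂ) (cv g d m) =
      ∑ p ∈ m.divisorsAntidiagonal, ((f p.1 * g p.1 : ℝ) : ℂ) * ((‖d p.2‖ ^ 2 : ℝ) : ℂ) := by
    intro m hm
    unfold cv
    rw [map_sum, Finset.sum_mul_sum]
    refine Finset.sum_congr rfl fun p hp => ?_
    rw [Finset.sum_eq_single p]
    · rw [map_mul, Complex.conj_ofReal]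
      have := Complex.mul_conj (d p.2)
      rw [Complex.normSq_eq_norm_sq] at this
      push_cast at this ⊢
      linear_combination (f p.1 : ℂ) * g p.1 * this
    · intro q hq hqp
      by_contra hne
      have hq1 : g q.1 ≠ 0 := by
        intro h; apply hne; rw [h]; simp
      have hp2 : d p.2 ≠ 0 := by
        intro h; apply hne; rw [h]; simp
      have hq2 : d q.2 ≠ 0 := by
        intro h; apply hne; rw [h]; simp
      have hpp := hd' _ hp2
      have hqq := hd' _ hq2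
      rw [Nat.mem_divisorsAntidiagonal] at hp hq
      have hdiv : p.2 ∣ q.1 * q.2 := by
        rw [hq.1, ← hp.1]; exact dvd_mul_left _ _
      rcases (hpp.1.dvd_mul).1 hdiv with h | h
      · have := hg _ hq1 _ hpp.1 h
        linarith [hpp.2]
      · have he : p.2 = q.2 := (Nat.prime_dvd_prime_iff_eq hpp.1 hqq.1).1 h
        apply hqp
        have h3 : q.1 * q.2 = p.1 * q.2 := by rw [hq.1, ← hp.1, he]
        have h4 : q.1 = p.1 := Nat.eq_of_mul_eq_mul_right hqq.1.pos h3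
        exact Prod.ext h4 he.symm
    · intro h
      exact absurd hp h
  rw [Finset.sum_congr rfl h1]
  rw [sum_conv H N Y hY (fun h n => ((f h * g h : ℝ) : ℂ) * ((‖d n‖ ^ 2 : ℝ) : ℂ))]
  · push_cast
    rw [Finset.sum_mul_sum]
  · intro h n hh
    rcases hh with hh | hh
    · rcases hfg h hh with h0 | h0 <;> simp [h0]
    · simp [hd n hh]

end Pool.Agent.Y498.SW
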