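import Pool.Agent.Y498.SW.TI1

set_option autoImplicit false

/-!
Job SW-TI, part 2: the powers of the sum over the small primes.
-/

namespace Pool.Agent.Y498.SW

open Finset Pool.Agent.Y745.SW

theorem pA_apply (y : ℝ) (n : ℕ) :
    pA y n = if n.Prime ∧ (n : ℝ) ≤ y then (Real.sqrt n)⁻¹ else 0 := rfl

theorem pA_nonneg (y : ℝ) (n : ℕ) : 0 ≤ pA y n := by
  rw [pA_apply]; split_ifs <;> positivity

theorem pA_le_one (y : ℝ) (n : ℕ) : pA y n ≤ 1 := by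
  rw [pA_apply]
  split_ifs with h
  · apply inv_le_one_of_one_le₀
    rw [Real.one_le_sqrt]
    exact_mod_cast h.1.one_lt.le
  · norm_num

theorem pw_nonneg (y : ℝ) (k n : ℕ) : 0 ≤ (pA y ^ k) n := by
  induction k generalizing n with
  | zero => rw [pow_zero, ArithmeticFunction.one_apply]; split_ifs <;> norm_num
  | succ k ih =>
    rw [pow_succ, ArithmeticFunction.mul_apply]
    exact Finset.sum_nonneg fun p _ => mul_nonneg (ih _) (pA_nonneg _ _)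

theorem pw_smooth (y : ℝ) (k n : ℕ) (h : (pA y ^ k) n ≠ 0) (r : ℕ) (hr : r.Prime) (hrn : r ∣ n) :
    (r : ℝ) ≤ y := by
  induction k generalizing n with
  | zero =>
    rw [pow_zero, ArithmeticFunction.one_apply] at h
    split_ifs at h with h1
    · subst h1
      exact absurd (Nat.dvd_one.1 hrn) hr.ne_one
    · exact absurd rfl h
  | succ k ih =>
    rw [pow_succ, ArithmeticFunction.mul_apply] at h
    obtain ⟨p, hp, hne⟩ := Finset.exists_ne_zero_of_sum_ne_zero h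
    rw [Nat.mem_divisorsAntidiagonal] at hp
    rw [← hp.1] at hrn
    rcases (hr.dvd_mul).1 hrn with h1 | h1
    · exact ih p.1 (left_ne_zero_of_mul hne) h1
    · have h2 := right_ne_zero_of_mul hne
      rw [pA_apply] at h2
      split_ifs at h2 with h3
      · have : r = p.2 := (Nat.prime_dvd_prime_iff_eq hr h3.1).1 h1
        rw [this]; exact h3.2
      · exact absurd rfl h2

theorem pA_supp (y : ℝ) (n : ℕ) (h : ⌊y⌋₊ < n) : pA y n = 0 := by
  rw [pA_apply, if_neg]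
  rintro ⟨h1, h2⟩
  exact absurd (Nat.le_floor h2) (by omega)

theorem pw_supp (y : ℝ) (k n : ℕ) (h : ⌊y⌋₊ ^ k < n) : (pA y ^ k) n = 0 := by
  induction k generalizing n with
  | zero =>
    rw [pow_zero] at h
    rw [pow_zero, ArithmeticFunction.one_apply, if_neg (by omega)]
  | succ k ih =>
    rw [pow_succ, ArithmeticFunction.mul_apply]
    apply Finset.sum_eq_zero
    intro p hp
    rw [Nat.mem_divisorsAntidiagonal] at hp
    by_cases h1 : ⌊y⌋₊ ^ k < p.1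
    · rw [ih _ h1, zero_mul]
    · by_cases h2 : ⌊y⌋₊ < p.2
      · rw [pA_supp _ _ h2, mul_zero]
      · exfalso
        have := Nat.mul_le_mul (not_lt.1 h1) (not_lt.1 h2)
        rw [hp.1, ← pow_succ] at this
        omega

/-- the small prime polynomial -/
noncomputable def sp (y : ℝ) (s : ℂ) : ℂ := ∑ h ∈ Icc 1 ⌊y⌋₊, (pA y h : ℂ) * (h : ℂ) ^ s

theorem pw_poly (y : ℝ) (k : ℕ) (s : ℂ) :
    ∑ h ∈ Icc 1 (⌊y⌋₊ ^ k), ((pA y ^ k) h : ℂ) * (h : ℂ) ^ s = sp y s ^ k := by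
  induction k with
  | zero => simp [ArithmeticFunction.one_apply]
  | succ k ih =>
    have h1 := cv_poly (fun h => (pA y ^ k) h) (fun n => (pA y n : ℂ)) (⌊y⌋₊ ^ k) ⌊y⌋₊
      (⌊y⌋₊ ^ (k + 1)) (by rw [pow_succ]) (fun h hh => pw_supp y k h hh)
      (fun n hn => by simp [pA_supp y n hn]) s
    rw [pow_succ (sp y s), ← ih, sp, ← h1]
    refine Finset.sum_congr rfl fun m _ => ?_
    rw [pow_succ, ArithmeticFunction.mul_apply, cv]
    push_cast
    rfl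

theorem pw_sum_le (y : ℝ) (k : ℕ) : ∑ h ∈ Icc 1 (⌊y⌋₊ ^ k), (pA y ^ k) h ≤ (⌊y⌋₊ : ℝ) ^ k := by
  have h1 := pw_poly y k 0
  have h2 : ∀ N : ℕ, ∀ f : ℕ → ℝ, ∑ h ∈ Icc 1 N, (f h : ℂ) * (h : ℂ) ^ (0 : ℂ) =
      ((∑ h ∈ Icc 1 N, f h : ℝ) : ℂ) := by
    intro N f
    push_cast
    refine Finset.sum_congr rfl fun h hh => ?_
    rw [Complex.cpow_zero, mul_one]
  rw [h2, sp, h2] at h1
  have h3 : ∑ h ∈ Icc 1 (⌊y⌋₊ ^ k), (pA y ^ k) h = (∑ h ∈ Icc 1 ⌊y⌋₊, pA y h) ^ k := by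
    exact_mod_cast h1
  rw [h3]
  apply pow_le_pow_left₀ (Finset.sum_nonneg fun h _ => pA_nonneg _ _)
  calc ∑ h ∈ Icc 1 ⌊y⌋₊, pA y h ≤ ∑ h ∈ Icc 1 ⌊y⌋₊, (1 : ℝ) :=
        Finset.sum_le_sum fun h _ => pA_le_one _ _
    _ = (⌊y⌋₊ : ℝ) := by simp

theorem Py_eq (y t : ℝ) : Py y t = sp y (-(t : ℂ) * Complex.I) := by
  unfold Py sp
  rw [Finset.sum_filter]
  refine Finset.sum_congr rfl fun n hn => ?_
  rw [mem_Icc] at hn
  rw [pA_apply]
  have hy : (n : ℝ) ≤ y := by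
    have h0 : (n : ℝ) ≤ (⌊y⌋₊ : ℝ) := by exact_mod_cast hn.2
    have h1 : 0 ≤ y := by
      by_contra h
      rw [Nat.floor_of_nonpos (not_le.1 h).le] at hn
      omega
    exact h0.trans (Nat.floor_le h1)
  by_cases hp : n.Prime
  · rw [if_pos hp, if_pos ⟨hp, hy⟩]
    have hn0 : (n : ℂ) ≠ 0 := by
      have : n ≠ 0 := by omega
      exact_mod_cast this
    rw [show -((1 : ℂ) / 2 + t * Complex.I) = ((-(1 / 2) : ℝ) : ℂ) + -(t : ℂ) * Complex.I by
      push_cast; ring, Complex.cpow_add _ _ hn0]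
    congr 1
    rw [← Complex.ofReal_natCast, ← Complex.ofReal_cpow (Nat.cast_nonneg n)]
    congr 1
    rw [Real.rpow_neg (Nat.cast_nonneg n), Real.sqrt_eq_rpow]
  · rw [if_neg hp, if_neg (fun h => hp h.1)]
    simp

theorem Px_pow (T t : ℝ) (k : ℕ) :
    Px T t ^ k = ∑ h ∈ Icc 1 (⌊xT T⌋₊ ^ k), ((pA (xT T) ^ k) h : ℂ) * (h : ℂ) ^ (-(t : ℂ) * Complex.I) := by
  rw [pw_poly, Px, Py_eq]

end Pool.Agent.Y498.SW
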