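import Pool.Agent.Y498.SW.TI2

set_option autoImplicit false

/-!
Job SW-TI, part 3: the twisted mean value of one Dirichlet polynomial.
-/

namespace Pool.Agent.Y498.SW

open Finset Pool.Agent.Y745.SW Complex

/-- the diagonal constant -/
noncomputable def MM (y : ℝ) (k l : ℕ) : ℝ :=
  ∑ n ∈ Icc 1 (⌊y⌋₊ ^ (k + l)), (pA y ^ k) n * (pA y ^ l) n

theorem MM_nonneg (y : ℝ) (k l : ℕ) : 0 ≤ MM y k l :=
  Finset.sum_nonneg fun _ _ => mul_nonneg (pw_nonneg _ _ _) (pw_nonneg _ _ _)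

theorem sum_le_of_supp (f : ℕ → ℝ) (hf : ∀ n, 0 ≤ f n) (H K : ℕ) (hs : ∀ n, H < n → f n = 0) :
    ∑ n ∈ Icc 1 K, f n ≤ ∑ n ∈ Icc 1 H, f n := by
  rcases le_total K H with h | h
  · exact Finset.sum_le_sum_of_subset_of_nonneg (Icc_subset_Icc le_rfl h) fun n _ _ => hf n
  · apply le_of_eq
    symm
    apply Finset.sum_subset (Icc_subset_Icc le_rfl h)
    intro n hn hn'
    rw [mem_Icc] at hn hn'
    exact hs n (by omega)

theorem MM_le (y : ℝ) (k l : ℕ) : MM y k l ≤ (⌊y⌋₊ : ℝ) ^ (k + l) := by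
  have hl : ∀ n, 1 ≤ n → (pA y ^ l) n ≤ (⌊y⌋₊ : ℝ) ^ l := by
    intro n hn
    refine le_trans ?_ (pw_sum_le y l)
    by_cases h : n ∈ Icc 1 (⌊y⌋₊ ^ l)
    · exact Finset.single_le_sum (f := fun n => (pA y ^ l) n) (fun i _ => pw_nonneg _ _ _) h
    · rw [mem_Icc] at h
      rw [pw_supp y l n (by omega)]
      exact Finset.sum_nonneg fun i _ => pw_nonneg _ _ _
  calc MM y k l ≤ ∑ n ∈ Icc 1 (⌊y⌋₊ ^ (k + l)), (pA y ^ k) n * (⌊y⌋₊ : ℝ) ^ l := by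
        refine Finset.sum_le_sum fun n hn => ?_
        rw [mem_Icc] at hn
        exact mul_le_mul_of_nonneg_left (hl n hn.1) (pw_nonneg _ _ _)
    _ = (∑ n ∈ Icc 1 (⌊y⌋₊ ^ (k + l)), (pA y ^ k) n) * (⌊y⌋₊ : ℝ) ^ l := by rw [Finset.sum_mul]
    _ ≤ (⌊y⌋₊ : ℝ) ^ k * (⌊y⌋₊ : ℝ) ^ l := by
        apply mul_le_mul_of_nonneg_right _ (by positivity)
        exact (sum_le_of_supp _ (pw_nonneg y k) (⌊y⌋₊ ^ k) _ fun n hn => pw_supp y k n hn).trans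
          (pw_sum_le y k)
    _ = (⌊y⌋₊ : ℝ) ^ (k + l) := by rw [pow_add]

theorem cs_sum (Y : ℕ) (a b : ℕ → ℂ) :
    ‖∑ m ∈ Icc 1 Y, a m * (starRingEnd ℂ) (b m)‖ ≤
      Real.sqrt (∑ m ∈ Icc 1 Y, ‖a m‖ ^ 2) * Real.sqrt (∑ m ∈ Icc 1 Y, ‖b m‖ ^ 2) := by
  calc ‖∑ m ∈ Icc 1 Y, a m * (starRingEnd ℂ) (b m)‖ ≤ ∑ m ∈ Icc 1 Y, ‖a m‖ * ‖b m‖ := by
        refine (norm_sum_le _ _).trans (le_of_eq (Finset.sum_congr rfl fun m _ => ?_))
        rw [norm_mul, RCLike.norm_conj]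
    _ ≤ Real.sqrt (∑ m ∈ Icc 1 Y, ‖a m‖ ^ 2) * Real.sqrt (∑ m ∈ Icc 1 Y, ‖b m‖ ^ 2) :=
        Real.sum_mul_le_sqrt_mul_sqrt _ _ _

/-- the twisted mean value of a Dirichlet polynomial -/
theorem local_bound (hMVB : P_MVB) (T T1 T2 : ℝ) (h12 : T1 ≤ T2) (k l X : ℕ) (d : ℕ → ℂ)
    (hx : 1 ≤ ⌊xT T⌋₊) (hd : ∀ n, X < n → d n = 0) (S δ : ℝ) (hS : ∑ n ∈ Icc 1 X, ‖d n‖ ^ 2 = S)
    (hδ : ∑ n ∈ Icc 1 X, (if n.Prime ∧ xT T < n then 0 else ‖d n‖ ^ 2) = δ) :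
    ‖(∫ t in T1..T2, Px T t ^ k * (starRingEnd ℂ) (Px T t) ^ l *
        ((‖∑ n ∈ Icc 1 X, d n * (n : ℂ) ^ (-(t : ℂ) * I)‖ ^ 2 : ℝ) : ℂ)) -
      ((T2 - T1 : ℝ) : ℂ) * ((MM (xT T) k l * S : ℝ) : ℂ)‖ ≤
    8 * (((⌊xT T⌋₊ ^ (k + l) * X : ℕ) : ℝ)) * (1 + Real.log ((⌊xT T⌋₊ ^ (k + l) * X : ℕ) : ℝ)) *
        ((⌊xT T⌋₊ : ℝ) ^ (k + l) * S) +
      (T2 - T1) * ((⌊xT T⌋₊ : ℝ) ^ (k + l) * (2 * (Real.sqrt S * Real.sqrt δ) + δ)) := by
  set N := ⌊xT T⌋₊ with hN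
  set Y := N ^ (k + l) * X with hY
  set x := xT T with hxx
  have hNk : ∀ j : ℕ, j ≤ k + l → N ^ j * X ≤ Y := fun j hj =>
    Nat.mul_le_mul_right _ (Nat.pow_le_pow_right hx hj)
  have hS0 : 0 ≤ S := by rw [← hS]; positivity
  have hδ0 : 0 ≤ δ := by
    rw [← hδ]
    exact Finset.sum_nonneg fun n _ => by split_ifs <;> positivity
  -- the integrand
  have hint : ∀ t : ℝ, Px T t ^ k * (starRingEnd ℂ) (Px T t) ^ l *
        ((‖∑ n ∈ Icc 1 X, d n * (n : ℂ) ^ (-(t : ℂ) * I)‖ ^ 2 : ℝ) : ℂ) =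
      (∑ n ∈ Icc 1 Y, cv (fun h => (pA x ^ k) h) d n * (n : ℂ) ^ (-(t : ℂ) * I)) *
        (starRingEnd ℂ) (∑ n ∈ Icc 1 Y, cv (fun h => (pA x ^ l) h) d n * (n : ℂ) ^ (-(t : ℂ) * I)) := by
    intro t
    rw [cv_poly _ d (N ^ k) X Y (hNk k (by omega)) (fun h hh => pw_supp x k h hh) hd,
      cv_poly _ d (N ^ l) X Y (hNk l (by omega)) (fun h hh => pw_supp x l h hh) hd,
      ← Px_pow, ← Px_pow, map_mul, map_pow]
    have := Complex.mul_conj (∑ n ∈ Icc 1 X, d n * (n : ℂ) ^ (-(t : ℂ) * I))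
    rw [Complex.normSq_eq_norm_sq] at this
    rw [← this]
    ring
  have hmv := hMVB Y T1 T2 h12 (cv (fun h => (pA x ^ k) h) d) (cv (fun h => (pA x ^ l) h) d)
  rw [intervalIntegral.integral_congr (fun t _ => hint t)]
  -- Young
  have young : ∀ (j : ℕ) (e : ℕ → ℂ) (E : ℝ), j ≤ k + l → (∀ n, X < n → e n = 0) →
      ∑ n ∈ Icc 1 X, ‖e n‖ ^ 2 = E →
      Real.sqrt (∑ m ∈ Icc 1 Y, ‖cv (fun h => (pA x ^ j) h) e m‖ ^ 2) ≤ (N : ℝ) ^ j * Real.sqrt E := by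
    intro j e E hj he hE
    have h1 := cv_sq (fun h => (pA x ^ j) h) e (N ^ j) X Y (hNk j hj)
      (fun h hh => pw_supp x j h hh) (fun h => pw_nonneg x j h) he
    have h2 := pw_sum_le x j
    rw [← hN] at h2
    have h3 : 0 ≤ ∑ h ∈ Icc 1 (N ^ j), (pA x ^ j) h := Finset.sum_nonneg fun h _ => pw_nonneg x j h
    calc Real.sqrt (∑ m ∈ Icc 1 Y, ‖cv (fun h => (pA x ^ j) h) e m‖ ^ 2)
        ≤ Real.sqrt ((∑ h ∈ Icc 1 (N ^ j), (pA x ^ j) h) ^ 2 * E) := by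
          apply Real.sqrt_le_sqrt; rw [← hE]; exact h1
      _ = (∑ h ∈ Icc 1 (N ^ j), (pA x ^ j) h) * Real.sqrt E := by
          rw [Real.sqrt_mul (by positivity), Real.sqrt_sq h3]
      _ ≤ (N : ℝ) ^ j * Real.sqrt E := mul_le_mul_of_nonneg_right h2 (Real.sqrt_nonneg _)
  -- the splitting
  set d1 : ℕ → ℂ := fun n => if n.Prime ∧ x < n then d n else 0 with hd1
  set d2 : ℕ → ℂ := fun n => if n.Prime ∧ x < n then 0 else d n with hd2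
  have hdd : ∀ n, d n = d1 n + d2 n := by
    intro n; simp only [hd1, hd2]; split_ifs <;> simp
  have hd1s : ∀ n, X < n → d1 n = 0 := by
    intro n hn; simp only [hd1]; split_ifs <;> simp [hd n hn]
  have hd2s : ∀ n, X < n → d2 n = 0 := by
    intro n hn; simp only [hd2]; split_ifs <;> simp [hd n hn]
  have hδ2 : ∑ n ∈ Icc 1 X, ‖d2 n‖ ^ 2 = δ := by
    rw [← hδ]
    refine Finset.sum_congr rfl fun n _ => ?_
    simp only [hd2]; split_ifs <;> simp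
  have hδ1 : ∑ n ∈ Icc 1 X, ‖d1 n‖ ^ 2 = S - δ := by
    rw [← hS, ← hδ, ← Finset.sum_sub_distrib]
    refine Finset.sum_congr rfl fun n _ => ?_
    simp only [hd1]; split_ifs <;> simp
  have hSδ : S - δ ≤ S := by linarith
  have hcvadd : ∀ (j m : ℕ), cv (fun h => (pA x ^ j) h) d m =
      cv (fun h => (pA x ^ j) h) d1 m + cv (fun h => (pA x ^ j) h) d2 m := by
    intro j m
    rw [← cv_add]
    congr 1
    funext n
    exact hdd n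
  have horth := cv_orth (fun h => (pA x ^ k) h) (fun h => (pA x ^ l) h) d1 (N ^ (k + l)) X Y x le_rfl
    (fun h hh => Or.inl (pw_supp x k h (lt_of_le_of_lt (Nat.pow_le_pow_right hx (by omega)) hh)))
    (fun h hh r hr hrh => pw_smooth x l h hh r hr hrh) hd1s
    (fun n hn => by
      simp only [hd1] at hn
      split_ifs at hn with h
      · exact h
      · exact absurd rfl hn)
  rw [hδ1] at horth
  have hMM : ∑ h ∈ Icc 1 (N ^ (k + l)), (pA x ^ k) h * (pA x ^ l) h = MM x k l := rfl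
  rw [hMM] at horth
  have hdiag : ‖∑ m ∈ Icc 1 Y, cv (fun h => (pA x ^ k) h) d m *
        (starRingEnd ℂ) (cv (fun h => (pA x ^ l) h) d m) - ((MM x k l * S : ℝ) : ℂ)‖ ≤
      (N : ℝ) ^ (k + l) * (2 * (Real.sqrt S * Real.sqrt δ) + δ) := by
    have e : ∑ m ∈ Icc 1 Y, cv (fun h => (pA x ^ k) h) d m *
        (starRingEnd ℂ) (cv (fun h => (pA x ^ l) h) d m) - ((MM x k l * S : ℝ) : ℂ) =
        (∑ m ∈ Icc 1 Y, cv (fun h => (pA x ^ k) h) d2 m *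
          (starRingEnd ℂ) (cv (fun h => (pA x ^ l) h) d m)) +
        (∑ m ∈ Icc 1 Y, cv (fun h => (pA x ^ k) h) d1 m *
          (starRingEnd ℂ) (cv (fun h => (pA x ^ l) h) d2 m)) - ((MM x k l * δ : ℝ) : ℂ) := by
      have e1 : ∑ m ∈ Icc 1 Y, cv (fun h => (pA x ^ k) h) d m *
          (starRingEnd ℂ) (cv (fun h => (pA x ^ l) h) d m) =
          (∑ m ∈ Icc 1 Y, cv (fun h => (pA x ^ k) h) d2 m *
            (starRingEnd ℂ) (cv (fun h => (pA x ^ l) h) d m)) +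
          (∑ m ∈ Icc 1 Y, cv (fun h => (pA x ^ k) h) d1 m *
            (starRingEnd ℂ) (cv (fun h => (pA x ^ l) h) d2 m)) +
          ∑ m ∈ Icc 1 Y, cv (fun h => (pA x ^ k) h) d1 m *
            (starRingEnd ℂ) (cv (fun h => (pA x ^ l) h) d1 m) := by
        rw [← Finset.sum_add_distrib, ← Finset.sum_add_distrib]
        refine Finset.sum_congr rfl fun m _ => ?_
        rw [hcvadd k m, hcvadd l m, map_add]
        ring
      rw [e1, horth]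
      push_cast
      ring
    rw [e]
    have b1 := (cs_sum Y (cv (fun h => (pA x ^ k) h) d2) (cv (fun h => (pA x ^ l) h) d)).trans
      (mul_le_mul (young k d2 δ (by omega) hd2s hδ2) (young l d S (by omega) hd hS)
        (Real.sqrt_nonneg _) (by positivity))
    have b2 := (cs_sum Y (cv (fun h => (pA x ^ k) h) d1) (cv (fun h => (pA x ^ l) h) d2)).trans
      (mul_le_mul (young k d1 _ (by omega) hd1s hδ1) (young l d2 δ (by omega) hd2s hδ2)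
        (Real.sqrt_nonneg _) (by positivity))
    have b3 : ‖((MM x k l * δ : ℝ) : ℂ)‖ ≤ (N : ℝ) ^ (k + l) * δ := by
      rw [Complex.norm_real, Real.norm_of_nonneg (mul_nonneg (MM_nonneg _ _ _) hδ0)]
      exact mul_le_mul_of_nonneg_right (MM_le x k l) hδ0
    have b4 : Real.sqrt (S - δ) ≤ Real.sqrt S := Real.sqrt_le_sqrt hSδ
    calc _ ≤ ‖(∑ m ∈ Icc 1 Y, cv (fun h => (pA x ^ k) h) d2 m *
          (starRingEnd ℂ) (cv (fun h => (pA x ^ l) h) d m)) +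
        (∑ m ∈ Icc 1 Y, cv (fun h => (pA x ^ k) h) d1 m *
          (starRingEnd ℂ) (cv (fun h => (pA x ^ l) h) d2 m))‖ + ‖((MM x k l * δ : ℝ) : ℂ)‖ :=
          norm_sub_le _ _
      _ ≤ ((N : ℝ) ^ k * Real.sqrt δ * ((N : ℝ) ^ l * Real.sqrt S) +
          (N : ℝ) ^ k * Real.sqrt (S - δ) * ((N : ℝ) ^ l * Real.sqrt δ)) + (N : ℝ) ^ (k + l) * δ :=
          add_le_add ((norm_add_le _ _).trans (add_le_add b1 b2)) b3
      _ ≤ ((N : ℝ) ^ k * Real.sqrt δ * ((N : ℝ) ^ l * Real.sqrt S) +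
          (N : ℝ) ^ k * Real.sqrt S * ((N : ℝ) ^ l * Real.sqrt δ)) + (N : ℝ) ^ (k + l) * δ := by
          gcongr
      _ = (N : ℝ) ^ (k + l) * (2 * (Real.sqrt S * Real.sqrt δ) + δ) := by
          rw [pow_add]; ring
  have hT12 : ‖((T2 - T1 : ℝ) : ℂ)‖ = T2 - T1 := by
    rw [Complex.norm_real, Real.norm_of_nonneg (by linarith)]
  have hlog : 0 ≤ Real.log (Y : ℝ) := Real.log_natCast_nonneg Y
  have hA : 8 * (Y : ℝ) * (1 + Real.log Y) *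
      (Real.sqrt (∑ n ∈ Icc 1 Y, ‖cv (fun h => (pA x ^ k) h) d n‖ ^ 2) *
        Real.sqrt (∑ n ∈ Icc 1 Y, ‖cv (fun h => (pA x ^ l) h) d n‖ ^ 2)) ≤
      8 * (Y : ℝ) * (1 + Real.log Y) * ((N : ℝ) ^ (k + l) * S) := by
    apply mul_le_mul_of_nonneg_left _ (by positivity)
    calc _ ≤ ((N : ℝ) ^ k * Real.sqrt S) * ((N : ℝ) ^ l * Real.sqrt S) :=
          mul_le_mul (young k d S (by omega) hd hS) (young l d S (by omega) hd hS)
            (Real.sqrt_nonneg _) (by positivity)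
      _ = (N : ℝ) ^ (k + l) * (Real.sqrt S * Real.sqrt S) := by rw [pow_add]; ring
      _ = (N : ℝ) ^ (k + l) * S := by rw [Real.mul_self_sqrt hS0]
  calc _ = ‖((∫ t in T1..T2, (∑ n ∈ Icc 1 Y, cv (fun h => (pA x ^ k) h) d n *
          (n : ℂ) ^ (-(t : ℂ) * I)) * (starRingEnd ℂ) (∑ n ∈ Icc 1 Y,
            cv (fun h => (pA x ^ l) h) d n * (n : ℂ) ^ (-(t : ℂ) * I))) -
        ((T2 - T1 : ℝ) : ℂ) * ∑ m ∈ Icc 1 Y, cv (fun h => (pA x ^ k) h) d m *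
          (starRingEnd ℂ) (cv (fun h => (pA x ^ l) h) d m)) +
        ((T2 - T1 : ℝ) : ℂ) * (∑ m ∈ Icc 1 Y, cv (fun h => (pA x ^ k) h) d m *
          (starRingEnd ℂ) (cv (fun h => (pA x ^ l) h) d m) - ((MM x k l * S : ℝ) : ℂ))‖ := by
        congr 1; ring
    _ ≤ _ := norm_add_le _ _
    _ ≤ 8 * (Y : ℝ) * (1 + Real.log Y) * ((N : ℝ) ^ (k + l) * S) +
        (T2 - T1) * ((N : ℝ) ^ (k + l) * (2 * (Real.sqrt S * Real.sqrt δ) + δ)) := by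
        apply add_le_add (hmv.trans hA)
        rw [norm_mul, hT12]
        exact mul_le_mul_of_nonneg_left hdiag (by linarith)

end Pool.Agent.Y498.SW
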