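import Pool.Agent.Y498.SW.TI3
import Pool.Agent.Helper256.KM.Mertens

set_option autoImplicit false

/-!
Job SW-TI, part 4: the coefficients of the prime sums.
-/

namespace Pool.Agent.Y498.SW

open Finset Pool.Agent.Y745.SW MeasureTheory

/-- the version without the cut-off -/
noncomputable def G0 (B : ℝ → ℝ) (a u y : ℝ) : ℝ :=
  1 / Real.sqrt (2 * Real.pi) * ∫ ξ in (-1:ℝ)..1, B ξ * Real.exp (-(u + ξ * a - y) ^ 2 / 2)

theorem Gp_eq (B : ℝ → ℝ) (a u y : ℝ) (ha : 0 ≤ a) (hu : a ≤ u) : Gp B a u y = G0 B a u y := by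
  unfold Gp G0
  congr 1
  apply intervalIntegral.integral_congr
  intro ξ hξ
  rw [Set.uIcc_of_le (by norm_num)] at hξ
  have : 0 ≤ u + ξ * a := by nlinarith [hξ.1, hξ.2]
  simp only [this, if_true]

theorem two_le_sqrt : (2:ℝ) ≤ Real.sqrt (2 * Real.pi) := by
  apply Real.le_sqrt_of_sq_le
  nlinarith [Real.pi_gt_three]

theorem G0_le (B : ℝ → ℝ) (b : ℝ) (hb : ∀ ξ ∈ Set.Icc (-1:ℝ) 1, |B ξ| ≤ b)
    (a u y r : ℝ) (ha : 0 ≤ a) (hr : 0 ≤ r) (hy : a + r ≤ |y - u|) :
    |G0 B a u y| ≤ b * Real.exp (-r ^ 2 / 2) := by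
  have hb0 : 0 ≤ b := (abs_nonneg _).trans (hb 0 (by norm_num))
  have h1 : ‖∫ ξ in (-1:ℝ)..1, B ξ * Real.exp (-(u + ξ * a - y) ^ 2 / 2)‖ ≤
      b * Real.exp (-r ^ 2 / 2) * |1 - (-1)| := by
    apply intervalIntegral.norm_integral_le_of_norm_le_const
    intro ξ hξ
    rw [Set.uIoc_of_le (by norm_num)] at hξ
    rw [norm_mul, Real.norm_eq_abs, Real.norm_of_nonneg (Real.exp_pos _).le]
    apply mul_le_mul (hb ξ ⟨hξ.1.le, hξ.2⟩) _ (Real.exp_pos _).le hb0
    apply Real.exp_le_exp.2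
    have h2 : r ≤ |u + ξ * a - y| := by
      have h3 : |y - u| ≤ |u + ξ * a - y| + |ξ * a| := by
        have := abs_sub (ξ * a) (u + ξ * a - y)
        have e : ξ * a - (u + ξ * a - y) = y - u := by ring
        rw [e] at this
        linarith
      have h4 : |ξ * a| ≤ a := by
        rw [abs_mul, abs_of_nonneg ha]
        have : |ξ| ≤ 1 := abs_le.2 ⟨hξ.1.le, hξ.2⟩
        nlinarith
      linarith
    have h5 : r ^ 2 ≤ (u + ξ * a - y) ^ 2 := by
      rw [← sq_abs (u + ξ * a - y)]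
      exact pow_le_pow_left₀ hr h2 2
    linarith
  rw [Real.norm_eq_abs] at h1
  unfold G0
  rw [abs_mul, abs_of_nonneg (by positivity)]
  have h2 := two_le_sqrt
  have h3 : 1 / Real.sqrt (2 * Real.pi) ≤ 1 / 2 := one_div_le_one_div_of_le (by norm_num) h2
  have h4 : |(1:ℝ) - (-1)| = 2 := by norm_num
  rw [h4] at h1
  calc 1 / Real.sqrt (2 * Real.pi) * |∫ ξ in (-1:ℝ)..1, B ξ * Real.exp (-(u + ξ * a - y) ^ 2 / 2)|
      ≤ 1 / 2 * (b * Real.exp (-r ^ 2 / 2) * 2) :=
        mul_le_mul h3 h1 (abs_nonneg _) (by norm_num)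
    _ = b * Real.exp (-r ^ 2 / 2) := by ring

theorem G0_le_b (B : ℝ → ℝ) (b : ℝ) (hb : ∀ ξ ∈ Set.Icc (-1:ℝ) 1, |B ξ| ≤ b)
    (a u y : ℝ) : |G0 B a u y| ≤ b := by
  have hb0 : 0 ≤ b := (abs_nonneg _).trans (hb 0 (by norm_num))
  have h1 : ‖∫ ξ in (-1:ℝ)..1, B ξ * Real.exp (-(u + ξ * a - y) ^ 2 / 2)‖ ≤ b * |1 - (-1)| := by
    apply intervalIntegral.norm_integral_le_of_norm_le_const
    intro ξ hξ
    rw [Set.uIoc_of_le (by norm_num)] at hξ
    rw [norm_mul, Real.norm_eq_abs, Real.norm_of_nonneg (Real.exp_pos _).le]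
    calc |B ξ| * Real.exp (-(u + ξ * a - y) ^ 2 / 2) ≤ b * 1 := by
          apply mul_le_mul (hb ξ ⟨hξ.1.le, hξ.2⟩) _ (Real.exp_pos _).le hb0
          apply Real.exp_le_one_iff.2
          have := sq_nonneg (u + ξ * a - y)
          linarith
      _ = b := mul_one b
  rw [Real.norm_eq_abs] at h1
  unfold G0
  rw [abs_mul, abs_of_nonneg (by positivity)]
  have h2 := two_le_sqrt
  have h3 : 1 / Real.sqrt (2 * Real.pi) ≤ 1 / 2 := one_div_le_one_div_of_le (by norm_num) h2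
  have h4 : |(1:ℝ) - (-1)| = 2 := by norm_num
  rw [h4] at h1
  calc 1 / Real.sqrt (2 * Real.pi) * |∫ ξ in (-1:ℝ)..1, B ξ * Real.exp (-(u + ξ * a - y) ^ 2 / 2)|
      ≤ 1 / 2 * (b * 2) := mul_le_mul h3 h1 (abs_nonneg _) (by norm_num)
    _ = b := by ring

theorem G0_le_div (B : ℝ → ℝ) (b : ℝ) (hb : ∀ ξ ∈ Set.Icc (-1:ℝ) 1, |B ξ| ≤ b)
    (a u y : ℝ) (ha : 0 < a) : |G0 B a u y| ≤ b / a := by
  have hb0 : 0 ≤ b := (abs_nonneg _).trans (hb 0 (by norm_num))
  have hgi : Integrable (fun ξ : ℝ => Real.exp (-(u + ξ * a - y) ^ 2 / 2)) := by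
    have h1 := (integrable_exp_neg_mul_sq (b := a ^ 2 / 2) (by positivity)).comp_add_right ((u - y) / a)
    refine h1.congr (Filter.Eventually.of_forall fun ξ => ?_)
    simp only
    congr 1
    field_simp
    ring
  have hgv : ∫ ξ : ℝ, Real.exp (-(u + ξ * a - y) ^ 2 / 2) = Real.sqrt (2 * Real.pi) / a := by
    have h1 := integral_gaussian (a ^ 2 / 2)
    rw [← integral_add_right_eq_self _ ((u - y) / a)] at h1
    rw [show (fun ξ : ℝ => Real.exp (-(u + ξ * a - y) ^ 2 / 2)) =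
      fun ξ : ℝ => Real.exp (-(a ^ 2 / 2) * (ξ + (u - y) / a) ^ 2) from ?_, h1]
    · rw [show Real.pi / (a ^ 2 / 2) = 2 * Real.pi / a ^ 2 by field_simp,
        Real.sqrt_div (by positivity), Real.sqrt_sq ha.le]
    · funext ξ
      congr 1
      field_simp
      ring
  have h1 : |∫ ξ in (-1:ℝ)..1, B ξ * Real.exp (-(u + ξ * a - y) ^ 2 / 2)| ≤
      b * (Real.sqrt (2 * Real.pi) / a) := by
    rw [← hgv, ← Real.norm_eq_abs, intervalIntegral.integral_of_le (by norm_num)]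
    rw [← integral_const_mul]
    calc ‖∫ ξ in Set.Ioc (-1:ℝ) 1, B ξ * Real.exp (-(u + ξ * a - y) ^ 2 / 2)‖
        ≤ ∫ ξ in Set.Ioc (-1:ℝ) 1, b * Real.exp (-(u + ξ * a - y) ^ 2 / 2) := by
          apply norm_integral_le_of_norm_le
          · exact (hgi.const_mul b).integrableOn
          · rw [ae_restrict_iff' measurableSet_Ioc]
            refine Filter.Eventually.of_forall fun ξ hξ => ?_
            rw [norm_mul, Real.norm_eq_abs, Real.norm_of_nonneg (Real.exp_pos _).le]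
            exact mul_le_mul_of_nonneg_right (hb ξ ⟨hξ.1.le, hξ.2⟩) (Real.exp_pos _).le
      _ ≤ ∫ ξ : ℝ, b * Real.exp (-(u + ξ * a - y) ^ 2 / 2) := by
          apply setIntegral_le_integral (hgi.const_mul b)
          exact Filter.Eventually.of_forall fun ξ => mul_nonneg hb0 (Real.exp_pos _).le
  unfold G0
  rw [abs_mul, abs_of_nonneg (by positivity)]
  have h2 : 0 < Real.sqrt (2 * Real.pi) := by positivity
  calc 1 / Real.sqrt (2 * Real.pi) * |∫ ξ in (-1:ℝ)..1, B ξ * Real.exp (-(u + ξ * a - y) ^ 2 / 2)|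
      ≤ 1 / Real.sqrt (2 * Real.pi) * (b * (Real.sqrt (2 * Real.pi) / a)) :=
        mul_le_mul_of_nonneg_left h1 (by positivity)
    _ = b / a := by field_simp

/-- Mertens in short intervals -/
theorem mertens_int : ∃ C : ℝ, 0 ≤ C ∧ ∀ (v w : ℝ) (X : ℕ), 0 ≤ v → v ≤ w →
    ∑ p ∈ (Icc 1 X).filter (fun n : ℕ => n.Prime ∧ v ≤ Real.log n ∧ Real.log n ≤ w),
      Real.log p / p ≤ (w - v) + C := by
  obtain ⟨C, hC⟩ := Pool.Agent.Helper256.KM.mertens_log
  have hC0 : 0 ≤ C := (abs_nonneg _).trans (hC 1 le_rfl)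
  refine ⟨2 * C + 2, by positivity, fun v w X hv hvw => ?_⟩
  set N1 := ⌊Real.exp w⌋₊ with hN1
  set N0 := ⌊Real.exp v⌋₊ with hN0
  have e1 : 1 ≤ Real.exp v := Real.one_le_exp hv
  have hN01 : 1 ≤ N0 := Nat.le_floor (by exact_mod_cast e1)
  have hN10 : N0 ≤ N1 := Nat.floor_le_floor (Real.exp_le_exp.2 hvw)
  have hnn : ∀ p : ℕ, 0 ≤ Real.log p / p := fun p =>
    div_nonneg (Real.log_natCast_nonneg p) (Nat.cast_nonneg p)
  have hsub : (Icc 1 X).filter (fun n : ℕ => n.Prime ∧ v ≤ Real.log n ∧ Real.log n ≤ w) ⊆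
      insert N0 (((Icc 1 N1).filter Nat.Prime) \ ((Icc 1 N0).filter Nat.Prime)) := by
    intro n hn
    rw [mem_filter, mem_Icc] at hn
    obtain ⟨⟨h1, -⟩, hp, hv', hw'⟩ := hn
    have hn0 : (0:ℝ) < n := by exact_mod_cast (by omega : 0 < n)
    have hn1 : n ≤ N1 := by
      apply Nat.le_floor
      rw [← Real.exp_log hn0]
      exact Real.exp_le_exp.2 hw'
    have hn2 : N0 ≤ n := by
      have : Real.exp v ≤ n := by
        rw [← Real.exp_log hn0]
        exact Real.exp_le_exp.2 hv'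
      have h3 := Nat.floor_le_floor this
      rwa [Nat.floor_natCast] at h3
    rw [mem_insert, mem_sdiff, mem_filter, mem_filter, mem_Icc, mem_Icc]
    rcases hn2.eq_or_lt with h | h
    · left; exact h.symm
    · right
      exact ⟨⟨⟨h1, hn1⟩, hp⟩, fun hcon => by omega⟩
  have hs : (Icc 1 N0).filter Nat.Prime ⊆ (Icc 1 N1).filter Nat.Prime :=
    filter_subset_filter _ (Icc_subset_Icc le_rfl hN10)
  have hni : N0 ∉ (((Icc 1 N1).filter Nat.Prime) \ ((Icc 1 N0).filter Nat.Prime)) ∨ True := Or.inr trivial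
  have h1 : ∑ p ∈ insert N0 (((Icc 1 N1).filter Nat.Prime) \ ((Icc 1 N0).filter Nat.Prime)),
      Real.log p / p ≤ Real.log N0 / N0 +
        ∑ p ∈ (((Icc 1 N1).filter Nat.Prime) \ ((Icc 1 N0).filter Nat.Prime)), Real.log p / p := by
    by_cases h : N0 ∈ (((Icc 1 N1).filter Nat.Prime) \ ((Icc 1 N0).filter Nat.Prime))
    · rw [insert_eq_of_mem h]
      linarith [hnn N0]
    · rw [sum_insert h]
  have h2 : ∑ p ∈ (((Icc 1 N1).filter Nat.Prime) \ ((Icc 1 N0).filter Nat.Prime)), Real.log p / p =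
      ∑ p ∈ (Icc 1 N1).filter Nat.Prime, Real.log p / p -
        ∑ p ∈ (Icc 1 N0).filter Nat.Prime, Real.log p / p := by
    rw [← Finset.sum_sdiff hs]; ring
  have h3 := abs_le.1 (hC N1 (hN01.trans hN10))
  have h4 := abs_le.1 (hC N0 hN01)
  have h5 : Real.log N1 ≤ w := by
    have : (N1 : ℝ) ≤ Real.exp w := Nat.floor_le (Real.exp_pos _).le
    have h0 : (0:ℝ) < N1 := by exact_mod_cast (by omega : 0 < N1)
    calc Real.log N1 ≤ Real.log (Real.exp w) := Real.log_le_log h0 this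
      _ = w := Real.log_exp w
  have hN0p : (1:ℝ) ≤ N0 := by exact_mod_cast hN01
  have h6 : v - 1 ≤ Real.log N0 := by
    have h7 : Real.exp v < N0 + 1 := Nat.lt_floor_add_one _
    have h8 : Real.exp (v - 1) ≤ N0 := by
      rw [Real.exp_sub]
      rw [div_le_iff₀ (Real.exp_pos 1)]
      have := Real.add_one_le_exp (1:ℝ)
      nlinarith
    calc v - 1 = Real.log (Real.exp (v - 1)) := (Real.log_exp _).symm
      _ ≤ Real.log N0 := Real.log_le_log (Real.exp_pos _) h8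
  have h7 : Real.log N0 / N0 ≤ 1 := by
    rw [div_le_one (by linarith)]
    have := Real.log_le_sub_one_of_pos (show (0:ℝ) < N0 by linarith)
    linarith
  calc _ ≤ _ := Finset.sum_le_sum_of_subset_of_nonneg hsub fun p _ _ => hnn p
    _ ≤ _ := h1
    _ ≤ (w - v) + (2 * C + 2) := by rw [h2]; linarith [h3.2, h4.1]

/-- the constant in the sum over the higher prime powers -/
noncomputable def K3 : ℝ := ∑' n : ℕ, (n : ℝ) ^ (-(3 / 2) : ℝ)

theorem K3_nonneg : 0 ≤ K3 := tsum_nonneg fun n => by positivity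

theorem ppow_sum (z : ℝ) (hz : 0 < z) (X : ℕ) :
    ∑ n ∈ (Icc 1 X).filter (fun n : ℕ => IsPrimePow n ∧ ¬ n.Prime ∧ z < n), (1:ℝ) / n ≤
      z ^ (-(1 / 4) : ℝ) * (2 * Real.log X * K3) := by
  set S := (Icc 1 X).filter (fun n : ℕ => IsPrimePow n ∧ ¬ n.Prime ∧ z < n) with hS
  set φ : ℕ → ℕ × ℕ := fun n => (n.minFac, n.factorization n.minFac) with hφ
  have hfac : ∀ n ∈ S, n.minFac ^ n.factorization n.minFac = n := fun n hn =>
    (mem_filter.1 hn).2.1.minFac_pow_factorization_eq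
  have hj : ∀ n ∈ S, 2 ≤ n.factorization n.minFac := by
    intro n hn
    have h1 := hfac n hn
    have h2 := (mem_filter.1 hn).2
    by_contra hcon
    have h3 : n.factorization n.minFac = 0 ∨ n.factorization n.minFac = 1 := by omega
    rcases h3 with h3 | h3
    · rw [h3, pow_zero] at h1
      rw [← h1] at h2
      exact not_isPrimePow_one h2.1
    · rw [h3, pow_one] at h1
      apply h2.2.1
      rw [← h1]
      exact Nat.minFac_prime (fun h => by rw [h] at h2; exact not_isPrimePow_one h2.1)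
  have hterm : ∀ n ∈ S, (1:ℝ) / n ≤ z ^ (-(1 / 4) : ℝ) * ((n.minFac : ℝ) ^ (-(3 / 2) : ℝ)) := by
    intro n hn
    have h1 := (mem_filter.1 hn)
    have hnpos : (0:ℝ) < n := by
      have := (mem_Icc.1 h1.1).1
      exact_mod_cast (by omega : 0 < n)
    have hq : (0:ℝ) < n.minFac := by exact_mod_cast Nat.minFac_pos n
    have hq1 : (1:ℝ) ≤ n.minFac := by exact_mod_cast Nat.minFac_pos n
    have h2 : (1:ℝ) / n = (n:ℝ) ^ (-(1 / 4) : ℝ) * (n:ℝ) ^ (-(3 / 4) : ℝ) := by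
      rw [← Real.rpow_add hnpos]
      norm_num
      rw [Real.rpow_neg_one]
    rw [h2]
    apply mul_le_mul
    · exact Real.rpow_le_rpow_of_nonpos hz h1.2.2.2.le (by norm_num)
    · have h3 : (n.minFac : ℝ) ^ (2:ℕ) ≤ n := by
        have h4 : n.minFac ^ 2 ≤ n := by
          calc n.minFac ^ 2 ≤ n.minFac ^ n.factorization n.minFac :=
                Nat.pow_le_pow_right (Nat.minFac_pos n) (hj n hn)
            _ = n := hfac n hn
        exact_mod_cast h4
      calc (n:ℝ) ^ (-(3 / 4) : ℝ) ≤ ((n.minFac : ℝ) ^ (2:ℕ)) ^ (-(3 / 4) : ℝ) :=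
            Real.rpow_le_rpow_of_nonpos (by positivity) h3 (by norm_num)
        _ = (n.minFac : ℝ) ^ (-(3 / 2) : ℝ) := by
            rw [← Real.rpow_natCast, ← Real.rpow_mul hq.le]
            norm_num
    · positivity
    · positivity
  have hinj : Set.InjOn φ S := by
    intro n hn m hm h
    rw [← hfac n hn, ← hfac m hm]
    have h1 : n.minFac = m.minFac := congrArg Prod.fst h
    have h2 : n.factorization n.minFac = m.factorization m.minFac := congrArg Prod.snd h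
    rw [h2, h1]
  have himg : S.image φ ⊆ Icc 1 X ×ˢ Icc 1 (Nat.log 2 X) := by
    intro p hp
    rw [mem_image] at hp
    obtain ⟨n, hn, rfl⟩ := hp
    have h1 := (mem_filter.1 hn)
    have h0 := mem_Icc.1 h1.1
    rw [mem_product, mem_Icc, mem_Icc]
    refine ⟨⟨Nat.minFac_pos n, (Nat.minFac_le (by omega)).trans h0.2⟩, ?_, ?_⟩
    · have := hj n hn
      show 1 ≤ n.factorization n.minFac
      omega
    · show n.factorization n.minFac ≤ Nat.log 2 X
      apply Nat.le_log_of_pow_le (by norm_num)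
      calc 2 ^ n.factorization n.minFac ≤ n.minFac ^ n.factorization n.minFac :=
            Nat.pow_le_pow_left (Nat.minFac_prime (fun h => by
              rw [h] at h1; exact not_isPrimePow_one h1.2.1)).two_le _
        _ = n := hfac n hn
        _ ≤ X := h0.2
  have hsum : Summable fun n : ℕ => (n : ℝ) ^ (-(3 / 2) : ℝ) :=
    Real.summable_nat_rpow.2 (by norm_num)
  calc ∑ n ∈ S, (1:ℝ) / n ≤ ∑ n ∈ S, z ^ (-(1 / 4) : ℝ) * ((n.minFac : ℝ) ^ (-(3 / 2) : ℝ)) :=
        Finset.sum_le_sum hterm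
    _ = z ^ (-(1 / 4) : ℝ) * ∑ n ∈ S, ((φ n).1 : ℝ) ^ (-(3 / 2) : ℝ) := by rw [Finset.mul_sum]
    _ = z ^ (-(1 / 4) : ℝ) * ∑ p ∈ S.image φ, (p.1 : ℝ) ^ (-(3 / 2) : ℝ) := by
        rw [Finset.sum_image hinj]
    _ ≤ z ^ (-(1 / 4) : ℝ) * ∑ p ∈ Icc 1 X ×ˢ Icc 1 (Nat.log 2 X), (p.1 : ℝ) ^ (-(3 / 2) : ℝ) := by
        apply mul_le_mul_of_nonneg_left _ (by positivity)
        exact Finset.sum_le_sum_of_subset_of_nonneg himg fun p _ _ => by positivity
    _ = z ^ (-(1 / 4) : ℝ) * ((Nat.log 2 X : ℝ) * ∑ q ∈ Icc 1 X, (q : ℝ) ^ (-(3 / 2) : ℝ)) := by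
        rw [Finset.sum_product]
        simp only [Finset.sum_const, Nat.card_Icc, Nat.add_sub_cancel, nsmul_eq_mul]
        rw [← Finset.mul_sum]
    _ ≤ z ^ (-(1 / 4) : ℝ) * (2 * Real.log X * K3) := by
        apply mul_le_mul_of_nonneg_left _ (by positivity)
        apply mul_le_mul
        · rcases Nat.eq_zero_or_pos X with h | h
          · subst h; simp
          · have h1 := Nat.pow_log_le_self 2 (by omega : X ≠ 0)
            have h2 : (2:ℝ) ^ (Nat.log 2 X) ≤ X := by exact_mod_cast h1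
            have h3 := Real.log_le_log (by positivity) h2
            rw [Real.log_pow] at h3
            have h4 := Real.log_two_gt_d9
            have h5 : (0:ℝ) ≤ (Nat.log 2 X : ℝ) := Nat.cast_nonneg _
            nlinarith
        · exact hsum.sum_le_tsum _ fun n _ => by positivity
        · positivity
        · have := Real.log_natCast_nonneg X
          positivity

end Pool.Agent.Y498.SW
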