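import Pool.Agent.Y498.SW.TI4

set_option autoImplicit false

/-!
Job SW-TI, part 5: uniform bounds for the sums of squares of the coefficients.
-/

namespace Pool.Agent.Y498.SW

open Finset Pool.Agent.Y745.SW MeasureTheory Filter Topology

open ArithmeticFunction (vonMangoldt)

/-- the common hypotheses -/
structure Hyp (c : ℕ → ℂ) (B : ℝ → ℝ) (b : ℝ) (L τ a u : ℝ) (X : ℕ) : Prop where
  hc : ∀ n, ‖c n‖ ≤ vonMangoldt n
  hb : ∀ ξ ∈ Set.Icc (-1:ℝ) 1, |B ξ| ≤ b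
  hL : 1 ≤ L
  hτ : 0 < τ
  ha : a = τ * L
  hu : 2 * a ≤ u
  hX : ∀ n : ℕ, 1 ≤ n → n ≤ X → Real.log n ≤ L

variable {c : ℕ → ℂ} {B : ℝ → ℝ} {b L τ a u : ℝ} {X : ℕ}

theorem Hyp.apos (h : Hyp c B b L τ a u X) : 0 < a := by
  rw [h.ha]; exact mul_pos h.hτ (by linarith [h.hL])

theorem Hyp.b0 (h : Hyp c B b L τ a u X) : 0 ≤ b := (abs_nonneg _).trans (h.hb 0 (by norm_num))

theorem Hyp.sq_le (h : Hyp c B b L τ a u X) (n : ℕ) (g : ℝ) (hg : |Gp B a u (Real.log n)| ≤ g) :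
    ‖dp c B a u n‖ ^ 2 ≤ vonMangoldt n ^ 2 * (1 / n) * g ^ 2 := by
  unfold dp
  rw [norm_mul, Complex.norm_real, Real.norm_eq_abs, abs_mul, mul_pow, mul_pow]
  have h1 : |(Real.sqrt n)⁻¹| ^ 2 = 1 / n := by
    rw [sq_abs, inv_pow, Real.sq_sqrt (Nat.cast_nonneg n), one_div]
  rw [h1]
  have h2 : ‖c n‖ ^ 2 ≤ vonMangoldt n ^ 2 := pow_le_pow_left₀ (norm_nonneg _) (h.hc n) 2
  have h3 : |Gp B a u (Real.log n)| ^ 2 ≤ g ^ 2 := pow_le_pow_left₀ (abs_nonneg _) hg 2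
  calc ‖c n‖ ^ 2 * (1 / (n:ℝ) * |Gp B a u (Real.log n)| ^ 2) ≤
      vonMangoldt n ^ 2 * (1 / (n:ℝ) * g ^ 2) := by
        apply mul_le_mul h2 _ (by positivity) (by positivity)
        exact mul_le_mul_of_nonneg_left h3 (by positivity)
    _ = vonMangoldt n ^ 2 * (1 / n) * g ^ 2 := by ring

theorem Hyp.Gb (h : Hyp c B b L τ a u X) (y : ℝ) : |Gp B a u y| ≤ b := by
  rw [Gp_eq B a u y h.apos.le (by linarith [h.hu, h.apos])]
  exact G0_le_b B b h.hb a u y

theorem Hyp.Gd (h : Hyp c B b L τ a u X) (y : ℝ) : |Gp B a u y| ≤ b / a := by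
  rw [Gp_eq B a u y h.apos.le (by linarith [h.hu, h.apos])]
  exact G0_le_div B b h.hb a u y h.apos

theorem Hyp.Gr (h : Hyp c B b L τ a u X) (y r : ℝ) (hr : 0 ≤ r) (hy : a + r ≤ |y - u|) :
    |Gp B a u y| ≤ b * Real.exp (-r ^ 2 / 2) := by
  rw [Gp_eq B a u y h.apos.le (by linarith [h.hu, h.apos])]
  exact G0_le B b h.hb a u y r h.apos.le hr hy

theorem sum_inv_le (h : ∀ n : ℕ, 1 ≤ n → n ≤ X → Real.log n ≤ L) (hL : 1 ≤ L) :
    ∑ n ∈ Icc 1 X, (1:ℝ) / n ≤ 1 + L := by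
  have h1 := harmonic_le_one_add_log X
  rw [harmonic_eq_sum_Icc] at h1
  push_cast at h1
  have h2 : ∑ n ∈ Icc 1 X, (1:ℝ) / n = ∑ n ∈ Icc 1 X, (n:ℝ)⁻¹ :=
    Finset.sum_congr rfl fun n _ => one_div _
  rw [h2]
  refine h1.trans ?_
  rcases Nat.eq_zero_or_pos X with h0 | h0
  · subst h0
    simp
    linarith
  · linarith [h X h0 le_rfl]

theorem Hyp.vM (h : Hyp c B b L τ a u X) (n : ℕ) (h1 : 1 ≤ n) (h2 : n ≤ X) :
    vonMangoldt n ^ 2 ≤ L ^ 2 :=
  pow_le_pow_left₀ ArithmeticFunction.vonMangoldt_nonneg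
    (ArithmeticFunction.vonMangoldt_le_log.trans (h.hX n h1 h2)) 2

/-- a sum of the coefficients with a bound for `G` -/
theorem Hyp.sumg (h : Hyp c B b L τ a u X) (g : ℝ) :
    ∑ n ∈ Icc 1 X, vonMangoldt n ^ 2 * (1 / (n:ℝ)) * g ^ 2 ≤ L ^ 2 * (1 + L) * g ^ 2 := by
  rw [← Finset.sum_mul]
  apply mul_le_mul_of_nonneg_right _ (sq_nonneg g)
  calc ∑ n ∈ Icc 1 X, vonMangoldt n ^ 2 * (1 / (n:ℝ)) ≤ ∑ n ∈ Icc 1 X, L ^ 2 * (1 / (n:ℝ)) := by
        refine Finset.sum_le_sum fun n hn => ?_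
        rw [mem_Icc] at hn
        exact mul_le_mul_of_nonneg_right (h.vM n hn.1 hn.2) (by positivity)
    _ = L ^ 2 * ∑ n ∈ Icc 1 X, (1:ℝ) / n := by rw [Finset.mul_sum]
    _ ≤ L ^ 2 * (1 + L) := mul_le_mul_of_nonneg_left (sum_inv_le h.hX h.hL) (by positivity)

theorem Hyp.crude (h : Hyp c B b L τ a u X) :
    ∑ n ∈ Icc 1 X, ‖dp c B a u n‖ ^ 2 ≤ L ^ 2 * (1 + L) * b ^ 2 :=
  (Finset.sum_le_sum fun n _ => h.sq_le n b (h.Gb _)).trans (h.sumg b)

/-- the small part -/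
theorem Hyp.small (h : Hyp c B b L τ a u X) (x : ℝ) (hx : x ≤ Real.exp (τ * L / 2)) :
    ∑ n ∈ Icc 1 X, (if n.Prime ∧ x < n then 0 else ‖dp c B a u n‖ ^ 2) ≤
      L ^ 2 * (1 + L) * (b * Real.exp (-(τ * L / 2) ^ 2 / 2)) ^ 2 +
        L ^ 2 * b ^ 2 * (Real.exp (-(τ * L / 8)) * (2 * L * K3)) := by
  set z := Real.exp (τ * L / 2) with hz
  have hLpos : 0 < L := by linarith [h.hL]
  have hterm : ∀ n ∈ Icc 1 X, (if n.Prime ∧ x < n then 0 else ‖dp c B a u n‖ ^ 2) ≤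
      vonMangoldt n ^ 2 * (1 / (n:ℝ)) * (b * Real.exp (-(τ * L / 2) ^ 2 / 2)) ^ 2 +
        (if IsPrimePow n ∧ ¬ n.Prime ∧ z < n then L ^ 2 * b ^ 2 * (1 / (n:ℝ)) else 0) := by
    intro n hn
    rw [mem_Icc] at hn
    have hn0 : (0:ℝ) < n := by exact_mod_cast (by omega : 0 < n)
    have hA : 0 ≤ vonMangoldt n ^ 2 * (1 / (n:ℝ)) * (b * Real.exp (-(τ * L / 2) ^ 2 / 2)) ^ 2 := by
      positivity
    have hB' : 0 ≤ (if IsPrimePow n ∧ ¬ n.Prime ∧ z < n then L ^ 2 * b ^ 2 * (1 / (n:ℝ)) else 0) := by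
      split_ifs <;> positivity
    by_cases h1 : n.Prime ∧ x < n
    · rw [if_pos h1]; linarith
    · rw [if_neg h1]
      by_cases h2 : (n:ℝ) ≤ z
      · have h3 : Real.log n ≤ τ * L / 2 := by
          rw [hz] at h2
          calc Real.log n ≤ Real.log (Real.exp (τ * L / 2)) := Real.log_le_log hn0 h2
            _ = τ * L / 2 := Real.log_exp _
        have h4 : a + τ * L / 2 ≤ |Real.log n - u| := by
          rw [abs_sub_comm]
          have h5 := h.hu
          have h6 := h.ha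
          have := le_abs_self (u - Real.log n)
          nlinarith
        have h5 := h.sq_le n _ (h.Gr _ (τ * L / 2) (by have := h.hτ; positivity) h4)
        linarith
      · push Not at h2
        by_cases h3 : IsPrimePow n
        · have h4 : ¬ n.Prime := fun hp => h1 ⟨hp, hx.trans_lt h2⟩
          rw [if_pos ⟨h3, h4, h2⟩]
          have h5 := h.sq_le n b (h.Gb _)
          have h6 := h.vM n hn.1 hn.2
          have h7 : vonMangoldt n ^ 2 * (1 / (n:ℝ)) * b ^ 2 ≤ L ^ 2 * b ^ 2 * (1 / (n:ℝ)) := by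
            calc vonMangoldt n ^ 2 * (1 / (n:ℝ)) * b ^ 2 ≤ L ^ 2 * (1 / (n:ℝ)) * b ^ 2 := by gcongr
              _ = _ := by ring
          linarith
        · have h4 : vonMangoldt n = 0 := ArithmeticFunction.vonMangoldt_eq_zero_iff.2 h3
          have h5 := h.sq_le n b (h.Gb _)
          rw [h4] at h5
          have h6 : ‖dp c B a u n‖ ^ 2 ≤ 0 := h5.trans (by norm_num)
          linarith
  refine (Finset.sum_le_sum hterm).trans ?_
  rw [Finset.sum_add_distrib]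
  apply add_le_add (h.sumg _)
  rw [← Finset.sum_filter, ← Finset.mul_sum]
  apply mul_le_mul_of_nonneg_left _ (by positivity)
  refine (ppow_sum z (Real.exp_pos _) X).trans ?_
  have h1 : z ^ (-(1 / 4) : ℝ) = Real.exp (-(τ * L / 8)) := by
    rw [hz, ← Real.exp_mul]; congr 1; ring
  rw [h1]
  apply mul_le_mul_of_nonneg_left _ (Real.exp_pos _).le
  apply mul_le_mul_of_nonneg_right _ K3_nonneg
  rcases Nat.eq_zero_or_pos X with h0 | h0
  · subst h0; simp; linarith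
  · linarith [h.hX X h0 le_rfl]

/-- the main bound -/
theorem Hyp.main (h : Hyp c B b L τ a u X) (C : ℝ)
    (hC : ∀ (v w : ℝ) (X : ℕ), 0 ≤ v → v ≤ w →
    ∑ p ∈ (Icc 1 X).filter (fun n : ℕ => n.Prime ∧ v ≤ Real.log n ∧ Real.log n ≤ w),
      Real.log p / p ≤ (w - v) + C) (x : ℝ) :
    ∑ n ∈ Icc 1 X, ‖dp c B a u n‖ ^ 2 ≤
      ∑ n ∈ Icc 1 X, (if n.Prime ∧ x < n then 0 else ‖dp c B a u n‖ ^ 2) +
        (L ^ 2 * (1 + L) * (b * Real.exp (-a ^ 2 / 2)) ^ 2 + L * (b / a) ^ 2 * (4 * a + C)) := by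
  have hLpos : 0 < L := by linarith [h.hL]
  have hapos := h.apos
  have hterm : ∀ n ∈ Icc 1 X, ‖dp c B a u n‖ ^ 2 ≤
      (if n.Prime ∧ x < n then 0 else ‖dp c B a u n‖ ^ 2) +
      (vonMangoldt n ^ 2 * (1 / (n:ℝ)) * (b * Real.exp (-a ^ 2 / 2)) ^ 2 +
        (if n.Prime ∧ u - 2 * a ≤ Real.log n ∧ Real.log n ≤ u + 2 * a then
          L * (b / a) ^ 2 * (Real.log n / n) else 0)) := by
    intro n hn
    rw [mem_Icc] at hn
    have hn0 : (0:ℝ) < n := by exact_mod_cast (by omega : 0 < n)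
    have hln : 0 ≤ Real.log n := Real.log_natCast_nonneg n
    have hA : 0 ≤ vonMangoldt n ^ 2 * (1 / (n:ℝ)) * (b * Real.exp (-a ^ 2 / 2)) ^ 2 := by
      positivity
    have hB' : 0 ≤ (if n.Prime ∧ u - 2 * a ≤ Real.log n ∧ Real.log n ≤ u + 2 * a then
          L * (b / a) ^ 2 * (Real.log n / n) else 0) := by
      split_ifs <;> positivity
    by_cases h1 : n.Prime ∧ x < n
    · rw [if_pos h1]
      by_cases h2 : u - 2 * a ≤ Real.log n ∧ Real.log n ≤ u + 2 * a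
      · rw [if_pos ⟨h1.1, h2⟩]
        have h3 := h.sq_le n _ (h.Gd _)
        have h4 : vonMangoldt n = Real.log n := ArithmeticFunction.vonMangoldt_apply_prime h1.1
        rw [h4] at h3
        have h5 := h.hX n hn.1 hn.2
        have h6 : Real.log n ^ 2 * (1 / (n:ℝ)) * (b / a) ^ 2 ≤ L * (b / a) ^ 2 * (Real.log n / n) := by
          calc Real.log n ^ 2 * (1 / (n:ℝ)) * (b / a) ^ 2 =
              Real.log n * ((b / a) ^ 2 * (Real.log n / n)) := by ring
            _ ≤ L * ((b / a) ^ 2 * (Real.log n / n)) := by gcongr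
            _ = _ := by ring
        linarith
      · have h3 : a + a ≤ |Real.log n - u| := by
          by_contra hcon
          push Not at hcon
          apply h2
          have := abs_le.1 hcon.le
          constructor <;> linarith [this.1, this.2]
        have h4 := h.sq_le n _ (h.Gr _ a hapos.le h3)
        linarith
    · rw [if_neg h1]; linarith
  refine (Finset.sum_le_sum hterm).trans ?_
  rw [Finset.sum_add_distrib, Finset.sum_add_distrib]
  apply add_le_add le_rfl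
  apply add_le_add (h.sumg _)
  rw [← Finset.sum_filter, ← Finset.mul_sum]
  apply mul_le_mul_of_nonneg_left _ (by positivity)
  refine (hC (u - 2 * a) (u + 2 * a) X (by linarith [h.hu]) (by linarith)).trans (le_of_eq (by ring))

/-! ### limits -/

theorem lim0 (m : ℝ) (q : ℕ) (c : ℝ) (hc : 0 < c) (hm : 0 ≤ m) :
    Tendsto (fun L : ℝ => L ^ q * Real.exp (m * (L / Real.log L)) * Real.exp (-(c * L))) atTop (𝓝 0) := by
  have h1 : Tendsto (fun L : ℝ => (2 / c) ^ q * ((c / 2 * L) ^ q * Real.exp (-(c / 2 * L)))) atTop (𝓝 0) := by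
    have h2 := (Real.tendsto_pow_mul_exp_neg_atTop_nhds_zero q).comp
      (tendsto_id.const_mul_atTop (show (0:ℝ) < c / 2 by positivity))
    have h3 := h2.const_mul ((2 / c) ^ q)
    rw [mul_zero] at h3
    exact h3
  refine squeeze_zero' ?_ ?_ h1
  · filter_upwards [eventually_ge_atTop 0] with L hL
    positivity
  · have hlog : ∀ᶠ L : ℝ in atTop, 2 * m / c + 1 ≤ Real.log L :=
      Real.tendsto_log_atTop.eventually_ge_atTop _
    filter_upwards [eventually_ge_atTop 0, hlog] with L hL hl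
    have hl0 : 0 < Real.log L := lt_of_lt_of_le (by positivity) hl
    have h4 : m * (L / Real.log L) ≤ c / 2 * L := by
      rw [← mul_div_assoc, div_le_iff₀ hl0]
      have h5 : 2 * m / c ≤ Real.log L := by linarith
      rw [div_le_iff₀ hc] at h5
      nlinarith
    have h6 : (2 / c) ^ q * ((c / 2 * L) ^ q * Real.exp (-(c / 2 * L))) =
        L ^ q * Real.exp (-(c / 2 * L)) := by
      rw [← mul_assoc, ← mul_pow]
      congr 2
      field_simp
    rw [h6, mul_assoc, ← Real.exp_add]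
    apply mul_le_mul_of_nonneg_left _ (by positivity)
    apply Real.exp_le_exp.2
    linarith

end Pool.Agent.Y498.SW
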