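import Pool.Agent.Y498.SW.TI5

set_option autoImplicit false

/-!
Job SW-TI, part 6: the uniform estimate.
-/

namespace Pool.Agent.Y498.SW

open Finset Pool.Agent.Y745.SW MeasureTheory Filter Topology Complex

theorem floor_le_exp (T : ℝ) : (⌊xT T⌋₊ : ℝ) ≤ Real.exp (Real.log T / Real.log (Real.log T)) :=
  Nat.floor_le (Real.exp_pos _).le

/-- the error function -/
noncomputable def om1 (m b ε τ L : ℝ) : ℝ :=
  16 * (m + 2) * b ^ 2 * (L ^ 4 * Real.exp (2 * m * (L / Real.log L)) * Real.exp (-(ε / 4 * L))) +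
  (2 * ((1 + 2 * b ^ 2) * (1 + b ^ 2 * (2 + 2 * K3))) *
    (L ^ 6 * Real.exp (m * (L / Real.log L)) * Real.exp (-(τ / 16 * L))) +
    b ^ 2 * (2 + 2 * K3) * (L ^ 3 * Real.exp (m * (L / Real.log L)) * Real.exp (-(τ / 8 * L))))

theorem om1_lim (m b ε τ : ℝ) (hm : 0 ≤ m) (hε : 0 < ε) (hτ : 0 < τ) :
    Tendsto (fun L : ℝ => om1 m b ε τ L) atTop (𝓝 0) := by
  have h1 := (lim0 (2 * m) 4 (ε / 4) (by positivity) (by positivity)).const_mul
    (16 * (m + 2) * b ^ 2)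
  have h2 := (lim0 m 6 (τ / 16) (by positivity) hm).const_mul
    (2 * ((1 + 2 * b ^ 2) * (1 + b ^ 2 * (2 + 2 * K3))))
  have h3 := (lim0 m 3 (τ / 8) (by positivity) hm).const_mul (b ^ 2 * (2 + 2 * K3))
  have h4 := h1.add (h2.add h3)
  rw [mul_zero, mul_zero, mul_zero, add_zero, add_zero] at h4
  exact h4

theorem sqrt_le_one_add (s : ℝ) (hs : 0 ≤ s) : Real.sqrt s ≤ 1 + s := by
  rw [Real.sqrt_le_left (by linarith)]
  nlinarith

theorem q1 (s : ℝ) (hs : 1 ≤ s) : ((2 : ℕ) : ℝ) * (-(s / 2) ^ 2 / 2) ≤ -(s / 8) := by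
  push_cast; nlinarith

theorem q2 (s : ℝ) (hs : 1 ≤ s) : ((2 : ℕ) : ℝ) * (-s ^ 2 / 2) ≤ -(s / 8) := by
  push_cast; nlinarith

theorem q4 (β v : ℝ) (hv : 1 ≤ v) : 1 + β * v ≤ (1 + β) * v := by
  linarith [add_mul 1 β v]

theorem q5 (L LL τ : ℝ) (hL : 0 ≤ L) (h : 2 ≤ LL * τ) : L ≤ τ * L / 2 * LL := by
  have := mul_le_mul_of_nonneg_left h hL
  linarith

/-- everything for one large `T` and one `y` -/
theorem one_step (hMVB : P_MVB) (c : ℕ → ℂ) (B : ℝ → ℝ) (b ε τ η1 : ℝ)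
    (hc : ∀ n, ‖c n‖ ≤ ArithmeticFunction.vonMangoldt n)
    (hb : ∀ ξ ∈ Set.Icc (-1:ℝ) 1, |B ξ| ≤ b) (hε : 0 < ε) (hε2 : ε < 1 / 2) (hτ : 0 < τ)
    (hη : 4 * τ ≤ η1) (k l : ℕ) (CM : ℝ) (hCM0 : 0 ≤ CM)
    (hCM : ∀ (v w : ℝ) (X : ℕ), 0 ≤ v → v ≤ w →
      ∑ p ∈ (Icc 1 X).filter (fun n : ℕ => n.Prime ∧ v ≤ Real.log n ∧ Real.log n ≤ w),
      Real.log p / p ≤ (w - v) + CM)
    (T y : ℝ) (hy : η1 ≤ y) (hT : 0 < T)
    (hL1 : 1 ≤ Real.log (Real.log T)) (hL2 : 2 / τ ≤ Real.log (Real.log T))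
    (hL3 : 2 * Real.log T ≤ T) (hL4 : 1 ≤ τ * Real.log T)
    (hL5 : Real.log T ^ 3 * Real.exp (-(τ / 8 * Real.log T)) ≤ 1) :
    ‖((((1 / T) * (1 / Real.log (Real.log T) ^ (((k:ℝ) + l) / 2)) : ℝ) : ℂ) *
      (∫ t in (T + Real.log T)..(2 * T - Real.log T), Px T t ^ k * (starRingEnd ℂ) (Px T t) ^ l *
        ((‖DPp c B (τ * Real.log T) ((1 - ε) * Real.log T * y) (XT ε T) t‖ ^ 2 : ℝ) : ℂ))) -
      (((if k = l then (k.factorial : ℝ) else 0) *
        (∑ n ∈ Icc 1 (XT ε T), ‖dp c B (τ * Real.log T) ((1 - ε) * Real.log T * y) n‖ ^ 2) : ℝ) : ℂ)‖ ≤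
    om1 ((k:ℝ) + l) b ε τ (Real.log T) +
      (b ^ 2 * (4 + 2 * K3) + (b / τ) ^ 2 * (4 * τ + CM)) *
      |(T - 2 * Real.log T) / T * (MM (xT T) k l / Real.log (Real.log T) ^ (((k:ℝ) + l) / 2)) -
        (if k = l then (k.factorial : ℝ) else 0)| := by
  set L := Real.log T with hLdef
  set LL := Real.log L with hLL
  have hLpos : 0 < L := by
    by_contra hcon
    have h1 : τ * L ≤ 0 := mul_nonpos_of_nonneg_of_nonpos hτ.le (not_lt.1 hcon)
    linarith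
  have hL0 : 1 ≤ L := by
    have h1 := Real.log_le_sub_one_of_pos hLpos
    linarith
  set a := τ * L with ha
  set u := (1 - ε) * L * y with hu
  set X := XT ε T with hX
  have hTexp : T = Real.exp L := (Real.exp_log hT).symm
  have hT1 : 1 ≤ T := by rw [hTexp]; exact Real.one_le_exp hLpos.le
  have hXT : (X : ℝ) ≤ Real.exp ((1 - ε / 4) * L) := by
    have h1 : (X : ℝ) ≤ T ^ (1 - ε / 4) := Nat.floor_le (by positivity)
    rw [Real.rpow_def_of_pos hT, mul_comm] at h1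
    exact h1
  have hXlog : ∀ n : ℕ, 1 ≤ n → n ≤ X → Real.log n ≤ L := by
    intro n hn hn'
    have h1 : (n : ℝ) ≤ T := by
      have h2 : (n : ℝ) ≤ X := by exact_mod_cast hn'
      refine h2.trans (hXT.trans ?_)
      rw [hTexp]
      apply Real.exp_le_exp.2
      exact mul_le_of_le_one_left hLpos.le (by linarith)
    have h0 : (0:ℝ) < n := by exact_mod_cast (by omega : 0 < n)
    exact Real.log_le_log h0 h1
  have hypo : Hyp c B b L τ a u X := by
    refine ⟨hc, hb, hL0, hτ, ha, ?_, hXlog⟩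
    have h1 : 4 * τ ≤ y := hη.trans hy
    have h2 : (1:ℝ) / 2 ≤ 1 - ε := by linarith
    have h3 : 0 ≤ L * y := mul_nonneg hLpos.le (by linarith)
    calc 2 * a = 1 / 2 * (L * (4 * τ)) := by rw [ha]; ring
      _ ≤ 1 / 2 * (L * y) := by gcongr
      _ ≤ (1 - ε) * (L * y) := mul_le_mul_of_nonneg_right h2 h3
      _ = u := by rw [hu]; ring
  have hb0 := hypo.b0
  have hK := K3_nonneg
  have hN1 : 1 ≤ ⌊xT T⌋₊ := by
    apply Nat.le_floor
    push_cast
    unfold xT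
    apply Real.one_le_exp
    have : 0 < Real.log (Real.log T) := by linarith
    positivity
  have hLLpos : 0 < LL := by linarith
  have hx : xT T ≤ Real.exp (τ * L / 2) := by
    unfold xT
    apply Real.exp_le_exp.2
    show L / LL ≤ τ * L / 2
    rw [div_le_iff₀ hLLpos]
    rw [div_le_iff₀ hτ] at hL2
    exact q5 L LL τ hLpos.le hL2
  -- the sums
  set S := ∑ n ∈ Icc 1 X, ‖dp c B a u n‖ ^ 2 with hS
  set δ := ∑ n ∈ Icc 1 X, (if n.Prime ∧ xT T < n then 0 else ‖dp c B a u n‖ ^ 2) with hδ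
  have hS0 : 0 ≤ S := Finset.sum_nonneg fun n _ => by positivity
  have hδ0 : 0 ≤ δ := Finset.sum_nonneg fun n _ => by split_ifs <;> positivity
  have hSC : S ≤ 2 * b ^ 2 * L ^ 3 := by
    refine hypo.crude.trans ?_
    have : 1 + L ≤ 2 * L := by linarith
    calc L ^ 2 * (1 + L) * b ^ 2 ≤ L ^ 2 * (2 * L) * b ^ 2 := by gcongr
      _ = _ := by ring
  have hexp1 : Real.exp (-(τ * L / 2) ^ 2 / 2) ^ 2 ≤ Real.exp (-(τ / 8 * L)) := by
    rw [← Real.exp_nat_mul]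
    apply Real.exp_le_exp.2
    refine (q1 (τ * L) hL4).trans (le_of_eq (by ring))
  have hδC : δ ≤ b ^ 2 * (2 + 2 * K3) * L ^ 3 * Real.exp (-(τ / 8 * L)) := by
    refine (hypo.small (xT T) hx).trans ?_
    have h1 : 1 + L ≤ 2 * L := by linarith
    have h2 : L ^ 2 * (1 + L) * (b * Real.exp (-(τ * L / 2) ^ 2 / 2)) ^ 2 ≤
        L ^ 2 * (2 * L) * (b ^ 2 * Real.exp (-(τ / 8 * L))) := by
      rw [mul_pow]
      gcongr
    have h3 : Real.exp (-(τ * L / 8)) = Real.exp (-(τ / 8 * L)) := by congr 1; ring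
    rw [h3]
    calc _ ≤ L ^ 2 * (2 * L) * (b ^ 2 * Real.exp (-(τ / 8 * L))) +
          L ^ 2 * b ^ 2 * (Real.exp (-(τ / 8 * L)) * (2 * L * K3)) := by linarith
      _ = _ := by ring
  have hSM : S ≤ b ^ 2 * (4 + 2 * K3) + (b / τ) ^ 2 * (4 * τ + CM) := by
    have h1 := hypo.main CM hCM (xT T)
    have h2 : L ^ 2 * (1 + L) * (b * Real.exp (-a ^ 2 / 2)) ^ 2 ≤
        2 * b ^ 2 * (L ^ 3 * Real.exp (-(τ / 8 * L))) := by
      have h3 : Real.exp (-a ^ 2 / 2) ^ 2 ≤ Real.exp (-(τ / 8 * L)) := by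
        rw [← Real.exp_nat_mul]
        apply Real.exp_le_exp.2
        refine (q2 a hL4).trans (le_of_eq ?_)
        rw [ha]; ring
      have h4 : 1 + L ≤ 2 * L := by linarith
      rw [mul_pow]
      calc L ^ 2 * (1 + L) * (b ^ 2 * Real.exp (-a ^ 2 / 2) ^ 2) ≤
          L ^ 2 * (2 * L) * (b ^ 2 * Real.exp (-(τ / 8 * L))) := by gcongr
        _ = _ := by ring
    have h5 : L * (b / a) ^ 2 * (4 * a + CM) ≤ (b / τ) ^ 2 * (4 * τ + CM) := by
      have e : L * (b / a) ^ 2 * (4 * a + CM) = (b / τ) ^ 2 * (4 * τ + CM / L) := by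
        rw [ha]; field_simp
      rw [e]
      have : CM / L ≤ CM := div_le_self hCM0 hL0
      gcongr
    have h6 : b ^ 2 * (2 + 2 * K3) * L ^ 3 * Real.exp (-(τ / 8 * L)) ≤ b ^ 2 * (2 + 2 * K3) := by
      rw [mul_assoc]
      exact mul_le_of_le_one_right (by positivity) hL5
    have h7 : 2 * b ^ 2 * (L ^ 3 * Real.exp (-(τ / 8 * L))) ≤ 2 * b ^ 2 :=
      mul_le_of_le_one_right (by positivity) hL5
    linarith
  -- the local bound
  set d : ℕ → ℂ := fun n => if n ≤ X then dp c B a u n else 0 with hd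
  have hde : ∀ n ∈ Icc 1 X, d n = dp c B a u n := fun n hn => if_pos (mem_Icc.1 hn).2
  have hds : ∀ n, X < n → d n = 0 := fun n hn => if_neg (by omega)
  have hT12 : T + L ≤ 2 * T - L := by linarith
  have hloc := local_bound hMVB T (T + L) (2 * T - L) hT12 k l X d hN1 hds S δ
    (Finset.sum_congr rfl fun n hn => by rw [hde n hn])
    (Finset.sum_congr rfl fun n hn => by rw [hde n hn])
  have hDP : ∀ t : ℝ, (∑ n ∈ Icc 1 X, d n * (n : ℂ) ^ (-(t : ℂ) * I)) = DPp c B a u X t := by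
    intro t
    exact Finset.sum_congr rfl fun n hn => by rw [hde n hn]
  simp only [hDP] at hloc
  set J := ∫ t in (T + L)..(2 * T - L), Px T t ^ k * (starRingEnd ℂ) (Px T t) ^ l *
        ((‖DPp c B a u X t‖ ^ 2 : ℝ) : ℂ) with hJ
  set χ : ℝ := if k = l then (k.factorial : ℝ) else 0 with hχ
  set M := MM (xT T) k l with hM
  set κ := LL ^ (((k:ℝ) + l) / 2) with hκ
  have hκ1 : 1 ≤ κ := Real.one_le_rpow hL1 (by positivity)
  have hκpos : 0 < κ := by linarith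
  set N := ⌊xT T⌋₊ with hN
  set P := Real.exp (((k:ℝ) + l) * (L / LL)) with hP
  have hNP : (N : ℝ) ^ (k + l) ≤ P := by
    calc (N : ℝ) ^ (k + l) ≤ (Real.exp (L / LL)) ^ (k + l) :=
          pow_le_pow_left₀ (Nat.cast_nonneg _) (floor_le_exp T) _
      _ = P := by rw [← Real.exp_nat_mul, hP]; congr 1; push_cast; ring
  have hPpos : 0 < P := Real.exp_pos _
  have hm0 : (0:ℝ) ≤ (k:ℝ) + l := by positivity
  -- first error
  have hYb : ((N ^ (k + l) * X : ℕ) : ℝ) ≤ P * Real.exp ((1 - ε / 4) * L) := by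
    push_cast
    exact mul_le_mul hNP hXT (Nat.cast_nonneg _) hPpos.le
  have hYlog : 1 + Real.log ((N ^ (k + l) * X : ℕ) : ℝ) ≤ ((k:ℝ) + l + 2) * L := by
    have h1 : Real.log ((N ^ (k + l) * X : ℕ) : ℝ) ≤ ((k:ℝ) + l) * (L / LL) + (1 - ε / 4) * L := by
      rcases Nat.eq_zero_or_pos (N ^ (k + l) * X) with h0 | h0
      · rw [h0, Nat.cast_zero, Real.log_zero]
        have : 0 ≤ (1 - ε / 4) * L := mul_nonneg (by linarith) hLpos.le
        have h3 : 0 ≤ ((k:ℝ) + l) * (L / LL) := by positivity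
        linarith
      · have h2 : Real.log ((N ^ (k + l) * X : ℕ) : ℝ) ≤ Real.log (P * Real.exp ((1 - ε / 4) * L)) :=
          Real.log_le_log (by exact_mod_cast h0) hYb
        rwa [hP, ← Real.exp_add, Real.log_exp] at h2
    have h2 : L / LL ≤ L := div_le_self hLpos.le hL1
    have h3 : ((k:ℝ) + l) * (L / LL) ≤ ((k:ℝ) + l) * L := mul_le_mul_of_nonneg_left h2 hm0
    have h4 : (1 - ε / 4) * L ≤ L := mul_le_of_le_one_left hLpos.le (by linarith)
    calc 1 + Real.log ((N ^ (k + l) * X : ℕ) : ℝ) ≤ L + (((k:ℝ) + l) * L + L) := by linarith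
      _ = ((k:ℝ) + l + 2) * L := by ring
  have hE1 : 1 / T * (8 * ((N ^ (k + l) * X : ℕ) : ℝ) * (1 + Real.log ((N ^ (k + l) * X : ℕ) : ℝ)) *
        ((N : ℝ) ^ (k + l) * S)) ≤
      16 * ((k:ℝ) + l + 2) * b ^ 2 * (L ^ 4 * Real.exp (2 * ((k:ℝ) + l) * (L / LL)) *
        Real.exp (-(ε / 4 * L))) := by
    have hlog0 : 0 ≤ 1 + Real.log ((N ^ (k + l) * X : ℕ) : ℝ) := by
      have := Real.log_natCast_nonneg (N ^ (k + l) * X)
      linarith
    calc 1 / T * (8 * ((N ^ (k + l) * X : ℕ) : ℝ) * (1 + Real.log ((N ^ (k + l) * X : ℕ) : ℝ)) *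
        ((N : ℝ) ^ (k + l) * S)) ≤
        1 / T * (8 * (P * Real.exp ((1 - ε / 4) * L)) * (((k:ℝ) + l + 2) * L) *
          (P * (2 * b ^ 2 * L ^ 3))) := by
          gcongr
      _ = 16 * ((k:ℝ) + l + 2) * b ^ 2 * (L ^ 4 * (P * P) *
          (1 / T * Real.exp ((1 - ε / 4) * L))) := by ring
      _ = _ := by
          congr 2
          · rw [hP, ← Real.exp_add]; congr 2; ring
          · rw [hTexp, one_div, ← Real.exp_neg, ← Real.exp_add]; congr 1
            ring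
  -- second error
  have hE2 : 1 / T * ((2 * T - L - (T + L)) *
      ((N : ℝ) ^ (k + l) * (2 * (Real.sqrt S * Real.sqrt δ) + δ))) ≤
      2 * ((1 + 2 * b ^ 2) * (1 + b ^ 2 * (2 + 2 * K3))) *
        (L ^ 6 * P * Real.exp (-(τ / 16 * L))) +
        b ^ 2 * (2 + 2 * K3) * (L ^ 3 * P * Real.exp (-(τ / 8 * L))) := by
    have h1 : 1 / T * (2 * T - L - (T + L)) ≤ 1 := by
      rw [div_mul_eq_mul_div, one_mul, div_le_one hT]; linarith
    have h10 : 0 ≤ 1 / T * (2 * T - L - (T + L)) := mul_nonneg (by positivity) (by linarith)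
    have hL3' : (1:ℝ) ≤ L ^ 3 := one_le_pow₀ hL0
    have h2 : Real.sqrt S ≤ (1 + 2 * b ^ 2) * L ^ 3 := by
      refine (sqrt_le_one_add S hS0).trans ?_
      exact (add_le_add le_rfl hSC).trans (q4 _ _ hL3')
    have h3 : Real.sqrt δ ≤ (1 + b ^ 2 * (2 + 2 * K3)) * L ^ 3 * Real.exp (-(τ / 16 * L)) := by
      have e : Real.exp (-(τ / 8 * L)) = Real.exp (-(τ / 16 * L)) ^ 2 := by
        rw [← Real.exp_nat_mul]; congr 1; push_cast; ring
      have h4 : δ ≤ (b ^ 2 * (2 + 2 * K3) * L ^ 3) * Real.exp (-(τ / 16 * L)) ^ 2 := by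
        rw [← e]; exact hδC
      calc Real.sqrt δ ≤ Real.sqrt ((b ^ 2 * (2 + 2 * K3) * L ^ 3) *
            Real.exp (-(τ / 16 * L)) ^ 2) := Real.sqrt_le_sqrt h4
        _ = Real.sqrt (b ^ 2 * (2 + 2 * K3) * L ^ 3) * Real.exp (-(τ / 16 * L)) := by
            rw [Real.sqrt_mul (by positivity), Real.sqrt_sq (Real.exp_pos _).le]
        _ ≤ (1 + b ^ 2 * (2 + 2 * K3)) * L ^ 3 * Real.exp (-(τ / 16 * L)) := by
            apply mul_le_mul_of_nonneg_right _ (Real.exp_pos _).le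
            exact (sqrt_le_one_add _ (by positivity)).trans (q4 _ _ hL3')
    have h4 : 2 * (Real.sqrt S * Real.sqrt δ) + δ ≤
        2 * (((1 + 2 * b ^ 2) * L ^ 3) *
          ((1 + b ^ 2 * (2 + 2 * K3)) * L ^ 3 * Real.exp (-(τ / 16 * L)))) +
        b ^ 2 * (2 + 2 * K3) * L ^ 3 * Real.exp (-(τ / 8 * L)) := by
      have := mul_le_mul h2 h3 (Real.sqrt_nonneg _) (by positivity)
      linarith
    have h5 : 0 ≤ 2 * (Real.sqrt S * Real.sqrt δ) + δ := by positivity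
    calc _ = (1 / T * (2 * T - L - (T + L))) *
          ((N : ℝ) ^ (k + l) * (2 * (Real.sqrt S * Real.sqrt δ) + δ)) := by ring
      _ ≤ 1 * (P * (2 * (((1 + 2 * b ^ 2) * L ^ 3) *
          ((1 + b ^ 2 * (2 + 2 * K3)) * L ^ 3 * Real.exp (-(τ / 16 * L)))) +
        b ^ 2 * (2 + 2 * K3) * L ^ 3 * Real.exp (-(τ / 8 * L)))) := by
          apply mul_le_mul h1 _ (by positivity) (by norm_num)
          exact mul_le_mul hNP h4 h5 hPpos.le
      _ = _ := by ring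
  have hfin : ((((1 / T) * (1 / κ) : ℝ) : ℂ) * J) - ((χ * S : ℝ) : ℂ) =
      (((1 / T) * (1 / κ) : ℝ) : ℂ) * (J - ((2 * T - L - (T + L) : ℝ) : ℂ) * ((M * S : ℝ) : ℂ)) +
      ((((T - 2 * L) / T * (M / κ) - χ) * S : ℝ) : ℂ) := by
    have hTC : (T : ℂ) ≠ 0 := by exact_mod_cast hT.ne'
    have hκC : (κ : ℂ) ≠ 0 := by exact_mod_cast hκpos.ne'
    push_cast
    field_simp
    ring
  rw [hfin]
  refine (norm_add_le _ _).trans (add_le_add ?_ ?_)
  · rw [norm_mul, Complex.norm_real, Real.norm_of_nonneg (by positivity)]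
    have h1 : 1 / T * (1 / κ) ≤ 1 / T := by
      apply mul_le_of_le_one_right (by positivity)
      rw [div_le_one hκpos]; exact hκ1
    calc _ ≤ 1 / T * (8 * ((N ^ (k + l) * X : ℕ) : ℝ) *
          (1 + Real.log ((N ^ (k + l) * X : ℕ) : ℝ)) * ((N : ℝ) ^ (k + l) * S) +
          (2 * T - L - (T + L)) *
            ((N : ℝ) ^ (k + l) * (2 * (Real.sqrt S * Real.sqrt δ) + δ))) :=
          mul_le_mul h1 hloc (norm_nonneg _) (by positivity)
      _ ≤ om1 ((k:ℝ) + l) b ε τ L := by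
          rw [mul_add]
          unfold om1
          exact add_le_add hE1 hE2
  · rw [Complex.norm_real, Real.norm_eq_abs, abs_mul, abs_of_nonneg hS0, mul_comm]
    exact mul_le_mul_of_nonneg_right hSM (abs_nonneg _)

end Pool.Agent.Y498.SW
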